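import Pool.Agent.Helper23.BK.Defs

set_option autoImplicit false

/-! # Project BK, Count: all but `r + r ^ 4` of the `t` separate the classes -/

namespace Pool.Agent.Helper23.BK

open Finset Pool.Agent.Helper24.MD

/-- cancelling a factor prime to `p` modulo `p ^ (j + 1)` -/
private theorem Count_cancel (p j : ℕ) (hp : p.Prime) (u v : ℤ)
    (h : ((u * v : ℤ) : ZMod (p ^ (j + 1))) = 0) (hv : ¬ (p : ℤ) ∣ v) :
    ((u : ℤ) : ZMod (p ^ (j + 1))) = 0 := by
  rw [ZMod.intCast_zmod_eq_zero_iff_dvd] at h ⊢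
  have h1 : IsCoprime (p : ℤ) v := (Nat.prime_iff_prime_int.1 hp).coprime_iff_not_dvd.2 hv
  have h2 : IsCoprime (((p ^ (j + 1) : ℕ) : ℤ)) v := by
    push_cast
    exact h1.pow_left
  exact h2.dvd_of_dvd_mul_right h

private theorem Count_core (p j : ℕ) (hp : p.Prime) (t s a a' b b' y y' z z' : ℕ)
    (h1 : a * (y + t) = a' * (y' + t)) (h2 : b * (z + s) = b' * (z' + s))
    (e1 : ((a : ℕ) : ZMod (p ^ (j + 1))) = ((b : ℕ) : ZMod (p ^ (j + 1))))
    (e2 : ((a' : ℕ) : ZMod (p ^ (j + 1))) = ((b' : ℕ) : ZMod (p ^ (j + 1))))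
    (e3 : rY (p ^ (j + 1)) y = rY (p ^ (j + 1)) z)
    (e4 : rY (p ^ (j + 1)) y' = rY (p ^ (j + 1)) z')
    (hne : ((a : ℕ) : ZMod (p ^ (j + 1))) ≠ ((a' : ℕ) : ZMod (p ^ (j + 1)))) :
    ((t : ℕ) : ZMod p) = ((s : ℕ) : ZMod p) := by
  unfold rY at e3 e4
  have k1 := congrArg (fun n : ℕ => (n : ZMod (p ^ (j + 1)))) h1
  have k2 := congrArg (fun n : ℕ => (n : ZMod (p ^ (j + 1)))) h2
  push_cast at k1 k2
  have f1 : ((b : ℕ) : ZMod (p ^ (j + 1))) = a := e1.symm
  have f2 : ((b' : ℕ) : ZMod (p ^ (j + 1))) = a' := e2.symm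
  have f3 : ((z : ℕ) : ZMod (p ^ (j + 1))) = y := e3.symm
  have f4 : ((z' : ℕ) : ZMod (p ^ (j + 1))) = y' := e4.symm
  rw [f1, f2, f3, f4] at k2
  have k3 : ((((a : ℤ) - a') * ((t : ℤ) - s) : ℤ) : ZMod (p ^ (j + 1))) = 0 := by
    push_cast
    linear_combination k1 - k2
  by_contra hts
  have h5 : ¬ (p : ℤ) ∣ (t : ℤ) - s := by
    intro hd
    apply hts
    have h7 : (((t : ℤ) - s : ℤ) : ZMod p) = 0 := (ZMod.intCast_zmod_eq_zero_iff_dvd _ _).2 hd
    push_cast at h7
    exact sub_eq_zero.1 h7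
  have h6 := Count_cancel p j hp _ _ k3 h5
  push_cast at h6
  exact hne (sub_eq_zero.1 h6)

/-- the valuations agree and the cofactors satisfy the same equation -/
private theorem Count_cof (p : ℕ) (hp : p.Prime) (t x x' y y' : ℕ) (hx : 0 < x) (hx' : 0 < x')
    (hy : ¬ p ∣ y + t) (hy' : ¬ p ∣ y' + t) (h : x * (y + t) = x' * (y' + t)) :
    x.factorization p = x'.factorization p ∧
      (x / p ^ x.factorization p) * (y + t) = (x' / p ^ x'.factorization p) * (y' + t) := by
  have hyt : y + t ≠ 0 := fun h0 => hy (h0 ▸ dvd_zero p)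
  have hyt' : y' + t ≠ 0 := fun h0 => hy' (h0 ▸ dvd_zero p)
  have hv : x.factorization p = x'.factorization p := by
    have h1 : (x * (y + t)).factorization p = (x' * (y' + t)).factorization p := by rw [h]
    rw [Nat.factorization_mul hx.ne' hyt, Nat.factorization_mul hx'.ne' hyt', Finsupp.add_apply,
      Finsupp.add_apply, Nat.factorization_eq_zero_of_not_dvd hy,
      Nat.factorization_eq_zero_of_not_dvd hy', add_zero, add_zero] at h1
    exact h1
  refine ⟨hv, ?_⟩
  have e1 := Nat.ordProj_mul_ordCompl_eq_self x p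
  have e2 := Nat.ordProj_mul_ordCompl_eq_self x' p
  have hpos : 0 < p ^ x.factorization p := pow_pos hp.pos _
  apply Nat.eq_of_mul_eq_mul_left hpos
  rw [← mul_assoc, ← mul_assoc, e1]
  rw [hv] at hpos ⊢
  rw [e2]
  exact h

open Classical in
/-- Bad `t`: (1) `p ∣ y + t` for some `y ∈ Y`; the class of `y` determines `t` modulo `p`, so at
most `r` of these. (2) otherwise `y + t` is a unit for all `y ∈ Y`; `x (y + t) = x' (y' + t)` gives
equal valuations and `a (y + t) = a' (y' + t)` for the cofactors; `a = a'` modulo `p ^ (j + 1)` gives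
`y = y'`; and for given classes with `a ≠ a'` two such `t1, t2` satisfy
`(a - a') (t1 - t2) = 0`, so `p ∣ t1 - t2`: at most `r ^ 4`. -/
theorem count_exc (p j : ℕ) (hp : p.Prime) (T : Finset ℕ) (hT : Inj T p)
    (X Y : Finset ℕ) (hX : ∀ x ∈ X, 0 < x) (r : ℕ)
    (hXr : (X.image (cx p (p ^ (j + 1)))).card ≤ r)
    (hYr : (Y.image (rY (p ^ (j + 1)))).card ≤ r) :
    (T.filter (fun t => ¬ Sep t p j X Y)).card ≤ r + r ^ 4 := by
  set M := p ^ (j + 1) with hM
  -- part 1
  have h1 : (T.filter (fun t => ∃ y ∈ Y, p ∣ y + t)).card ≤ r := by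
    have key : ∀ t ∈ T.filter (fun t => ∃ y ∈ Y, p ∣ y + t), ∃ y : ℕ, y ∈ Y ∧ p ∣ y + t := by
      intro t ht
      exact (mem_filter.1 ht).2
    choose! q hq hd using key
    refine le_trans (card_le_card_of_injOn (t := Y.image (rY M)) (fun t => rY M (q t)) ?_ ?_) hYr
    · intro t ht
      exact mem_coe.2 (mem_image_of_mem _ (hq t ht))
    · intro t ht s hs heq
      have heq' : rY M (q t) = rY M (q s) := heq
      unfold rY at heq'
      rw [ZMod.natCast_eq_natCast_iff] at heq'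
      have h2 : q t ≡ q s [MOD p] := heq'.of_dvd (dvd_pow_self p (Nat.succ_ne_zero j))
      have h3 : ((q t : ℕ) : ZMod p) = ((q s : ℕ) : ZMod p) :=
        (ZMod.natCast_eq_natCast_iff _ _ _).2 h2
      have h4 : ((q t + t : ℕ) : ZMod p) = 0 := (ZMod.natCast_eq_zero_iff _ _).2 (hd t ht)
      have h5 : ((q s + s : ℕ) : ZMod p) = 0 := (ZMod.natCast_eq_zero_iff _ _).2 (hd s hs)
      push_cast at h4 h5
      apply hT t (mem_filter.1 ht).1 s (mem_filter.1 hs).1
      linear_combination h4 - h5 - h3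
  -- part 2
  have h2 : (T.filter (fun t => ¬ Sep t p j X Y ∧ ∀ y ∈ Y, ¬ p ∣ y + t)).card ≤ r ^ 4 := by
    have key : ∀ t ∈ T.filter (fun t => ¬ Sep t p j X Y ∧ ∀ y ∈ Y, ¬ p ∣ y + t),
        ∃ q : (ℕ × ℕ) × (ℕ × ℕ), q.1.1 ∈ X ∧ q.1.2 ∈ X ∧ q.2.1 ∈ Y ∧ q.2.2 ∈ Y ∧
          (q.1.1 / p ^ q.1.1.factorization p) * (q.2.1 + t) =
            (q.1.2 / p ^ q.1.2.factorization p) * (q.2.2 + t) ∧
          (((q.1.1 / p ^ q.1.1.factorization p : ℕ)) : ZMod M) ≠
            (((q.1.2 / p ^ q.1.2.factorization p : ℕ)) : ZMod M) := by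
      intro t ht
      obtain ⟨hs, hu⟩ := (mem_filter.1 ht).2
      unfold Sep at hs
      push Not at hs
      obtain ⟨x, hx, x', hx', y, hy, y', hy', he, hne⟩ := hs
      obtain ⟨hv, hc⟩ := Count_cof p hp t x x' y y' (hX x hx) (hX x' hx') (hu y hy) (hu y' hy') he
      refine ⟨((x, x'), (y, y')), hx, hx', hy, hy', hc, ?_⟩
      intro heq
      simp only at heq
      apply hne
      · unfold cx
        rw [← hM, heq, hv]
      · unfold rY
        have k1 := congrArg (fun n : ℕ => (n : ZMod M)) hc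
        push_cast at k1
        rw [heq] at k1
        have hcop : ¬ (p : ℤ) ∣ ((x' / p ^ x'.factorization p : ℕ) : ℤ) := by
          intro hd
          have hd' : p ∣ x' / p ^ x'.factorization p := by exact_mod_cast hd
          exact Nat.not_dvd_ordCompl hp (hX x' hx').ne' hd'
        generalize x' / p ^ x'.factorization p = w at k1 hcop
        have k2 : (((((y : ℤ) - y') * (w : ℤ) : ℤ)) : ZMod (p ^ (j + 1))) = 0 := by
          rw [← hM]
          push_cast
          linear_combination k1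
        have k3 := Count_cancel p j hp _ _ k2 hcop
        rw [← hM] at k3 ⊢
        push_cast at k3
        exact sub_eq_zero.1 k3
    choose! q hx hx' hy hy' he hne using key
    set U := ((X.image (cx p M)) ×ˢ (X.image (cx p M))) ×ˢ
      ((Y.image (rY M)) ×ˢ (Y.image (rY M))) with hU
    have hcard : U.card ≤ r ^ 4 := by
      rw [hU, card_product, card_product, card_product]
      calc _ ≤ (r * r) * (r * r) := by gcongr
        _ = r ^ 4 := by ring
    refine le_trans (card_le_card_of_injOn (t := U) (fun t => ((cx p M (q t).1.1,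
      cx p M (q t).1.2), (rY M (q t).2.1, rY M (q t).2.2))) ?_ ?_) hcard
    · intro t ht
      simp only [hU, coe_product, Set.mem_prod, mem_coe]
      exact ⟨⟨mem_image_of_mem _ (hx t ht), mem_image_of_mem _ (hx' t ht)⟩,
        ⟨mem_image_of_mem _ (hy t ht), mem_image_of_mem _ (hy' t ht)⟩⟩
    · intro t ht s hs heq
      simp only [Prod.mk.injEq] at heq
      obtain ⟨⟨e1, e2⟩, e3, e4⟩ := heq
      unfold cx at e1 e2
      rw [Prod.mk.injEq] at e1 e2
      exact hT t (mem_filter.1 ht).1 s (mem_filter.1 hs).1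
        (Count_core p j hp t s _ _ _ _ _ _ _ _ (he t ht) (he s hs) e1.2 e2.2 e3 e4 (hne t ht))
  refine le_trans (card_le_card ?_) (le_trans (card_union_le
    (T.filter (fun t => ∃ y ∈ Y, p ∣ y + t))
    (T.filter (fun t => ¬ Sep t p j X Y ∧ ∀ y ∈ Y, ¬ p ∣ y + t))) (add_le_add h1 h2))
  intro t ht
  rw [mem_filter] at ht
  rw [mem_union, mem_filter, mem_filter]
  by_cases h : ∃ y ∈ Y, p ∣ y + t
  · exact Or.inl ⟨ht.1, h⟩
  · push Not at h
    exact Or.inr ⟨ht.1, ht.2, h⟩

end Pool.Agent.Helper23.BK
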