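import Pool.Agent.Helper23.BK.Defs

set_option autoImplicit false

/-! # Project BK, Shift: class inequalities for `X (Y + t)` -/

namespace Pool.Agent.Helper23.BK

open Finset Pool.Agent.Helper24.MD

private lemma Shift_av_sub {α : Type*} (S : Finset α) (F F' : α → ℝ) :
    av S (fun x => F x - F' x) = av S F - av S F' := by
  unfold av
  rw [Finset.sum_sub_distrib, sub_div]

private lemma Shift_av3 {α β : Type*} (X : Finset α) (Y : Finset β) (hX : X.Nonempty)
    (hY : Y.Nonempty) (a : α → ℝ) (b : β → ℝ) (c : α → β → ℝ) :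
    av X (fun x => av Y (fun y => a x + b y - c x y)) =
      av X a + av Y b - av X (fun x => av Y (fun y => c x y)) := by
  have h1 : ∀ x, av Y (fun y => a x + b y - c x y) = a x + av Y b - av Y (fun y => c x y) := by
    intro x
    rw [Shift_av_sub, av_add, av_const Y hY]
  simp only [h1]
  rw [Shift_av_sub, av_add, av_const X hX]

private lemma Shift_dt {ι κ : Type*} [DecidableEq ι] [DecidableEq κ] (t : ℕ) (φ : ℕ → ι)
    (ψ : ℕ → κ) (X : Finset ℕ) (hX : X.Nonempty) (Y : Finset ℕ) (hY : Y.Nonempty) :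
    av X (fun x => av Y (fun y => dt t (cl φ X x) (cl ψ Y y))) =
      (Real.log (X.card : ℝ) - hh φ X) + (Real.log (Y.card : ℝ) - hh ψ Y) -
        av X (fun x => av Y (fun y =>
          Real.log ((sp t (cl φ X x) (cl ψ Y y)).card : ℝ))) := by
  unfold dt
  rw [Shift_av3 X Y hX hY (fun x => Real.log ((cl φ X x).card : ℝ))
    (fun y => Real.log ((cl ψ Y y).card : ℝ))
    (fun x y => Real.log ((sp t (cl φ X x) (cl ψ Y y)).card : ℝ)),
    log_card_eq, log_card_eq]

private lemma Shift_dt_left {ι : Type*} [DecidableEq ι] (t : ℕ) (φ : ℕ → ι)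
    (X : Finset ℕ) (hX : X.Nonempty) (Y : Finset ℕ) :
    av X (fun x => dt t (cl φ X x) Y) =
      (Real.log (X.card : ℝ) - hh φ X) + Real.log (Y.card : ℝ) -
        av X (fun x => Real.log ((sp t (cl φ X x) Y).card : ℝ)) := by
  unfold dt
  rw [Shift_av_sub, av_add, av_const X hX, log_card_eq]

private theorem Shift_sp_mono {t : ℕ} {X X' : Finset ℕ} {Y Y' : Finset ℕ} (hX : X' ⊆ X) (hY : Y' ⊆ Y) :
    sp t X' Y' ⊆ sp t X Y := by
  unfold sp
  exact Finset.image₂_subset hX hY

private lemma Shift_cl_sub {α β : Type*} [DecidableEq β] (φ : α → β) (S : Finset α) (x : α) :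
    cl φ S x ⊆ S := by
  unfold cl
  exact Finset.filter_subset _ _

private lemma Shift_log_mono (t : ℕ) {X X' : Finset ℕ} {Y Y' : Finset ℕ} (hX : X' ⊆ X)
    (hY : Y' ⊆ Y) (hX' : X'.Nonempty) (hY' : Y'.Nonempty) :
    Real.log ((sp t X' Y').card : ℝ) ≤ Real.log ((sp t X Y).card : ℝ) := by
  have hne : (sp t X' Y').Nonempty := by
    unfold sp
    exact Finset.Nonempty.image₂ hX' hY'
  have hpos : (0 : ℝ) < ((sp t X' Y').card : ℝ) := by
    exact_mod_cast Finset.card_pos.2 hne
  have hle : ((sp t X' Y').card : ℝ) ≤ ((sp t X Y).card : ℝ) := by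
    exact_mod_cast Finset.card_le_card (Shift_sp_mono hX hY)
  exact Real.log_le_log hpos hle

/-- passing to subsets costs the logarithms of the ratios -/
theorem dt_restrict (t : ℕ) {X X' Y Y' : Finset ℕ} (hX : X' ⊆ X) (hY : Y' ⊆ Y)
    (hX' : X'.Nonempty) (hY' : Y'.Nonempty) :
    dt t X Y ≤ (Real.log (X.card : ℝ) - Real.log (X'.card : ℝ)) +
      (Real.log (Y.card : ℝ) - Real.log (Y'.card : ℝ)) + dt t X' Y' := by
  have hlog := Shift_log_mono t hX hY hX' hY'
  unfold dt
  linarith

/-- any partition of `X`: loss at most its entropy (`|X (Y+t)| ≥ |X' (Y+t)|` for each class) -/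
theorem dt_left_any {β : Type*} [DecidableEq β] (φ : ℕ → β) (t : ℕ) (X Y : Finset ℕ)
    (hX : X.Nonempty) (hY : Y.Nonempty) :
    dt t X Y ≤ hh φ X + av X (fun x => dt t (cl φ X x) Y) := by
  rw [Shift_dt_left t φ X hX Y]
  have h : av X (fun x => Real.log ((sp t (cl φ X x) Y).card : ℝ)) ≤
      av X (fun _ => Real.log ((sp t X Y).card : ℝ)) := by
    refine av_mono X _ _ (fun x hx => ?_)
    exact Shift_log_mono t (Shift_cl_sub φ X x) (Finset.Subset.refl Y)
      ⟨x, mem_cl_self φ X x hx⟩ hY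
  rw [av_const X hX] at h
  unfold dt
  linarith

private lemma Shift_cast_eq {M : ℕ} {a b : ℕ} (h : a = b) : ((a : ℕ) : ZMod M) = ((b : ℕ) : ZMod M) :=
  congrArg _ h

/-- the cofactor is a unit -/
private lemma Shift_unit (p j x : ℕ) (hp : p.Prime) (hx : 0 < x) :
    IsUnit ((x / p ^ x.factorization p : ℕ) : ZMod (p ^ (j + 1))) := by
  rw [ZMod.isUnit_iff_coprime]
  exact Nat.Coprime.pow_right _ (Nat.coprime_ordCompl hp hx.ne').symm

private lemma Shift_split (p x : ℕ) : p ^ x.factorization p * (x / p ^ x.factorization p) = x :=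
  Nat.ordProj_mul_ordCompl_eq_self x p

/-- `step_right` with `cx` and `rY`: once the class of `x` is known, `y` modulo `p ^ (j + 1)` is
seen (the cofactor of `x` is a unit modulo `p ^ (j + 1)`); loss `hh (cx ..) X`, for EVERY `t` -/
theorem dt_right (t p j : ℕ) (hp : p.Prime) (X Y : Finset ℕ) (hX : X.Nonempty)
    (hXp : ∀ x ∈ X, 0 < x) (hY : Y.Nonempty) :
    dt t X Y ≤ hh (cx p (p ^ (j + 1))) X +
      av X (fun x => av Y (fun y =>
        dt t (cl (cx p (p ^ (j + 1))) X x) (cl (rY (p ^ (j + 1))) Y y))) := by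
  have h := step_right (fun (x : ℕ) (y : ℕ) => x * (y + t)) (cx p (p ^ (j + 1)))
    (rY (p ^ (j + 1))) X Y hX hY (by
      intro x hx x' hx' y _ y' _ hφ hxy
      unfold cx at hφ
      rw [Prod.mk.injEq] at hφ
      obtain ⟨hv, hu⟩ := hφ
      have e0 : x * (y + t) = x' * (y' + t) := hxy
      have e1 : (x / p ^ x.factorization p) * (y + t) =
          (x' / p ^ x'.factorization p) * (y' + t) := by
        have hpos : 0 < p ^ x.factorization p := pow_pos hp.pos _
        apply Nat.eq_of_mul_eq_mul_left hpos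
        rw [← mul_assoc, Shift_split, ← mul_assoc, hv, Shift_split]
        exact e0
      have e2 := Shift_cast_eq (M := p ^ (j + 1)) e1
      rw [Nat.cast_mul, Nat.cast_mul, ← hu] at e2
      have e3 := (Shift_unit p j x hp (hXp x hx)).mul_left_cancel e2
      rw [Nat.cast_add, Nat.cast_add] at e3
      exact add_right_cancel e3)
  rw [Shift_dt t (cx p (p ^ (j + 1))) (rY (p ^ (j + 1))) X hX Y hY]
  unfold dt
  unfold sp
  linarith

/-- `step_left` with a constant map on `Y`: if `y + t` is a fixed unit modulo `p ^ (j + 1)` then the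
class of `x` is seen -/
theorem dt_zero (t t0 p j : ℕ) (hp : p.Prime)
    (ht : ((t : ℕ) : ZMod p) ≠ ((t0 : ℕ) : ZMod p)) (X Y : Finset ℕ) (hX : X.Nonempty)
    (hXp : ∀ x ∈ X, 0 < x) (hY : Y.Nonempty) (hdiv : ∀ y ∈ Y, p ^ (j + 1) ∣ y + t0) :
    dt t X Y ≤ av X (fun x => dt t (cl (cx p (p ^ (j + 1))) X x) Y) := by
  have hpn : ∀ y ∈ Y, ¬ p ∣ y + t := by
    intro y hy hd
    have h1 : p ∣ y + t0 := (dvd_pow_self p (Nat.succ_ne_zero j)).trans (hdiv y hy)
    apply ht
    have h2 : ((y + t : ℕ) : ZMod p) = ((y + t0 : ℕ) : ZMod p) := by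
      rw [(ZMod.natCast_eq_zero_iff (y + t) p).2 hd, (ZMod.natCast_eq_zero_iff (y + t0) p).2 h1]
    rw [Nat.cast_add, Nat.cast_add] at h2
    exact add_left_cancel h2
  have hfac : ∀ y ∈ Y, (y + t).factorization p = 0 := by
    intro y hy
    exact Nat.factorization_eq_zero_of_not_dvd (hpn y hy)
  have h2 := step_left (fun (x : ℕ) (y : ℕ) => x * (y + t)) (cx p (p ^ (j + 1)))
      (fun _ : ℕ => ()) X Y hX hY (by
        intro x hx x' hx' y hy y' hy' _ hxy
        have e0 : x * (y + t) = x' * (y' + t) := hxy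
        have hyt : y + t ≠ 0 := fun h0 => hpn y hy (h0 ▸ dvd_zero p)
        have hyt' : y' + t ≠ 0 := fun h0 => hpn y' hy' (h0 ▸ dvd_zero p)
        have hv : x.factorization p = x'.factorization p := by
          have e1 := congrArg (fun n : ℕ => n.factorization p) e0
          simp only [Nat.factorization_mul (hXp x hx).ne' hyt,
            Nat.factorization_mul (hXp x' hx').ne' hyt', Finsupp.add_apply, hfac y hy,
            hfac y' hy', add_zero] at e1
          exact e1
        have e1 : (x / p ^ x.factorization p) * (y + t) =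
            (x' / p ^ x'.factorization p) * (y' + t) := by
          have hpos : 0 < p ^ x.factorization p := pow_pos hp.pos _
          apply Nat.eq_of_mul_eq_mul_left hpos
          rw [← mul_assoc, Shift_split, ← mul_assoc, hv, Shift_split]
          exact e0
        have e2 := Shift_cast_eq (M := p ^ (j + 1)) e1
        rw [Nat.cast_mul, Nat.cast_mul] at e2
        have e3 : ((y + t : ℕ) : ZMod (p ^ (j + 1))) = ((y' + t : ℕ) : ZMod (p ^ (j + 1))) := by
          have k1 := (ZMod.natCast_eq_zero_iff (y + t0) (p ^ (j + 1))).2 (hdiv y hy)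
          have k2 := (ZMod.natCast_eq_zero_iff (y' + t0) (p ^ (j + 1))).2 (hdiv y' hy')
          rw [← k2, Nat.cast_add, Nat.cast_add] at k1
          rw [Nat.cast_add, Nat.cast_add, add_right_cancel k1]
        rw [← e3] at e2
        have hu : IsUnit ((y + t : ℕ) : ZMod (p ^ (j + 1))) := by
          rw [ZMod.isUnit_iff_coprime]
          exact Nat.Coprime.pow_right _ ((Nat.Prime.coprime_iff_not_dvd hp).2 (hpn y hy)).symm
        have e4 := hu.mul_right_cancel e2
        unfold cx
        rw [Prod.mk.injEq]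
        exact ⟨hv, e4⟩)
  have hcl : ∀ y : ℕ, cl (fun _ : ℕ => ()) Y y = Y := by
    intro y
    unfold cl
    exact Finset.filter_true_of_mem (fun _ _ => rfl)
  simp only [hcl, av_const Y hY] at h2
  rw [Shift_dt_left t (cx p (p ^ (j + 1))) X hX Y]
  unfold dt
  unfold sp
  linarith

/-- `step_both` -/
theorem dt_sep (t p j : ℕ) (X Y : Finset ℕ) (hX : X.Nonempty) (hY : Y.Nonempty)
    (h : Sep t p j X Y) :
    dt t X Y ≤ av X (fun x => av Y (fun y =>
        dt t (cl (cx p (p ^ (j + 1))) X x) (cl (rY (p ^ (j + 1))) Y y))) := by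
  have h := step_both (fun (x : ℕ) (y : ℕ) => x * (y + t)) (cx p (p ^ (j + 1)))
    (rY (p ^ (j + 1))) X Y hX hY h
  rw [Shift_dt t (cx p (p ^ (j + 1))) (rY (p ^ (j + 1))) X hX Y hY]
  unfold dt
  unfold sp
  linarith

end Pool.Agent.Helper23.BK
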