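import Pool.Agent.Helper23.BK.Shift
import Pool.Agent.Helper23.BK.Count

set_option autoImplicit false

/-! # Project BK, AvgE: the average over `t` for sets with few classes -/

namespace Pool.Agent.Helper23.BK

open Finset Pool.Agent.Helper24.MD

/-- `dt_sep` for all but `r + r ^ 4` of the `t` (`count_exc`), `dt_right` and
`hh ≤ log r` (`hh_le_log_card`) for the others; then `av_comm` and `IH`. -/
theorem avg_trunc (ε : ℝ) (hε : 0 ≤ ε) (T : Finset ℕ) (hTn : T.Nonempty) (p j : ℕ)
    (hp : p.Prime) (hT : Inj T p) (r : ℕ) (X : Finset ℕ) (hX : X.Nonempty)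
    (hXp : ∀ x ∈ X, 0 < x) (Y : Finset ℕ) (hY : Y.Nonempty)
    (hXr : (X.image (cx p (p ^ (j + 1)))).card ≤ r)
    (hYr : (Y.image (rY (p ^ (j + 1)))).card ≤ r)
    (IH : ∀ X' : Finset ℕ, X'.Nonempty → (∀ x ∈ X', 0 < x) → ∀ y ∈ Y,
      av T (fun t => dt t X' (cl (rY (p ^ (j + 1))) Y y)) ≤
        ε * Real.log (X'.card : ℝ) + ε * Real.log ((cl (rY (p ^ (j + 1))) Y y).card : ℝ)) :
    av T (fun t => dt t X Y) ≤ ((r : ℝ) + (r : ℝ) ^ 4) * Real.log r / (T.card : ℝ) +
      ε * Real.log (X.card : ℝ) +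
        ε * (Real.log (Y.card : ℝ) - hh (rY (p ^ (j + 1))) Y) := by
  classical
  have hlr : 0 ≤ Real.log (r : ℝ) := Real.log_natCast_nonneg r
  have hTc : (0 : ℝ) < T.card := by exact_mod_cast hTn.card_pos
  -- one value of `t`
  have h1 : ∀ t ∈ T, dt t X Y ≤ (if Sep t p j X Y then 0 else Real.log (r : ℝ)) +
      av X (fun x => av Y (fun y =>
        dt t (cl (cx p (p ^ (j + 1))) X x) (cl (rY (p ^ (j + 1))) Y y))) := by
    intro t _
    split_ifs with hs
    · rw [zero_add]
      exact dt_sep t p j X Y hX hY hs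
    · refine le_trans (dt_right t p j hp X Y hX hXp hY) ?_
      gcongr
      refine le_trans (hh_le_log_card _ X hX) ?_
      refine Real.log_le_log ?_ (by exact_mod_cast hXr)
      exact_mod_cast (hX.image _).card_pos
  have h2 : av T (fun t => dt t X Y) ≤
      av T (fun t => if Sep t p j X Y then 0 else Real.log (r : ℝ)) +
      av T (fun t => av X (fun x => av Y (fun y =>
        dt t (cl (cx p (p ^ (j + 1))) X x) (cl (rY (p ^ (j + 1))) Y y)))) := by
    rw [← av_add]
    exact av_mono T _ _ h1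
  -- the exceptional `t`
  have h3 : av T (fun t => if Sep t p j X Y then 0 else Real.log (r : ℝ)) ≤
      ((r : ℝ) + (r : ℝ) ^ 4) * Real.log r / (T.card : ℝ) := by
    unfold av
    refine div_le_div_of_nonneg_right ?_ hTc.le
    have h4 : ∑ t ∈ T, (if Sep t p j X Y then 0 else Real.log (r : ℝ)) =
        ((T.filter (fun t => ¬ Sep t p j X Y)).card : ℝ) * Real.log r := by
      have h5 : ∀ t ∈ T, (if Sep t p j X Y then 0 else Real.log (r : ℝ)) =
          if ¬ Sep t p j X Y then Real.log (r : ℝ) else 0 := by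
        intro t _
        by_cases hs : Sep t p j X Y
        · rw [if_pos hs, if_neg (not_not.2 hs)]
        · rw [if_neg hs, if_pos hs]
      rw [Finset.sum_congr rfl h5, ← Finset.sum_filter, Finset.sum_const, nsmul_eq_mul]
    rw [h4]
    have h6 := count_exc p j hp T hT X Y hXp r hXr hYr
    have h7 : ((T.filter (fun t => ¬ Sep t p j X Y)).card : ℝ) ≤ (r : ℝ) + (r : ℝ) ^ 4 := by
      have h8 : (T.filter (fun t => ¬ Sep t p j X Y)).card ≤ r + r ^ 4 := by
        convert h6
      exact_mod_cast h8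
    exact mul_le_mul_of_nonneg_right h7 hlr
  -- the average of the classes
  have h9 : av T (fun t => av X (fun x => av Y (fun y =>
        dt t (cl (cx p (p ^ (j + 1))) X x) (cl (rY (p ^ (j + 1))) Y y)))) =
      av X (fun x => av Y (fun y => av T (fun t =>
        dt t (cl (cx p (p ^ (j + 1))) X x) (cl (rY (p ^ (j + 1))) Y y)))) := by
    rw [av_comm]
    congr 1
    funext x
    rw [av_comm]
  have h10 : av X (fun x => av Y (fun y => av T (fun t =>
        dt t (cl (cx p (p ^ (j + 1))) X x) (cl (rY (p ^ (j + 1))) Y y)))) ≤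
      av X (fun x => av Y (fun y =>
        ε * Real.log ((cl (cx p (p ^ (j + 1))) X x).card : ℝ) +
          ε * Real.log ((cl (rY (p ^ (j + 1))) Y y).card : ℝ))) := by
    refine av_mono X _ _ fun x hx => av_mono Y _ _ fun y hy => ?_
    refine IH _ ⟨x, mem_cl_self _ X x hx⟩ ?_ y hy
    intro z hz
    unfold cl at hz
    exact hXp z (Finset.mem_filter.1 hz).1
  have h11 : av X (fun x => av Y (fun y =>
        ε * Real.log ((cl (cx p (p ^ (j + 1))) X x).card : ℝ) +
          ε * Real.log ((cl (rY (p ^ (j + 1))) Y y).card : ℝ))) =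
      ε * (Real.log (X.card : ℝ) - hh (cx p (p ^ (j + 1))) X) +
        ε * (Real.log (Y.card : ℝ) - hh (rY (p ^ (j + 1))) Y) := by
    have h12 : ∀ x : ℕ, av Y (fun y =>
        ε * Real.log ((cl (cx p (p ^ (j + 1))) X x).card : ℝ) +
          ε * Real.log ((cl (rY (p ^ (j + 1))) Y y).card : ℝ)) =
        ε * Real.log ((cl (cx p (p ^ (j + 1))) X x).card : ℝ) +
          ε * (Real.log (Y.card : ℝ) - hh (rY (p ^ (j + 1))) Y) := by
      intro x
      rw [av_add, av_const Y hY, av_mul, log_card_eq]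
    simp only [h12]
    rw [av_add, av_const X hX, av_mul, log_card_eq]
  have h13 : 0 ≤ ε * hh (cx p (p ^ (j + 1))) X := mul_nonneg hε (hh_nonneg _ X hX)
  rw [h9] at h2
  rw [h11] at h10
  linarith [h2, h3, h10, h13]

end Pool.Agent.Helper23.BK
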