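import Pool.Agent.Helper23.BK.Shift

set_option autoImplicit false

/-! # Project BK, cases B and C -/

namespace Pool.Agent.Helper23.BK

open Finset Pool.Agent.Helper24.MD

/-- Case B: restrict `Y` to `Y0` (cost `L`); for `t ≠ t0` use `dt_zero`, for `t = t0` use
`dt_left_any` (its share of the average is at most `hh / |T|`); `L + hh / |T| ≤ ε hh`. -/
theorem caseB (ε L : ℝ) (hε : 0 < ε) (T : Finset ℕ) (hm : 2 / ε ≤ (T.card : ℝ)) (p j t0 : ℕ)
    (hp : p.Prime) (ht0 : t0 ∈ T) (hT : Inj T p) (X : Finset ℕ) (hX : X.Nonempty)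
    (hXp : ∀ x ∈ X, 0 < x) (Y Y0 : Finset ℕ) (hsub : Y0 ⊆ Y) (hne : Y0.Nonempty)
    (hdiv : ∀ y ∈ Y0, p ^ (j + 1) ∣ y + t0)
    (hL : Real.log (Y.card : ℝ) - Real.log (Y0.card : ℝ) ≤ L)
    (hB : 2 * L / ε ≤ hh (cx p (p ^ (j + 1))) X)
    (IH : ∀ X' : Finset ℕ, X'.Nonempty → (∀ x ∈ X', 0 < x) → av T (fun t => dt t X' Y0) ≤
      ε * Real.log (X'.card : ℝ) + ε * Real.log (Y0.card : ℝ)) :
    av T (fun t => dt t X Y) ≤ ε * Real.log (X.card : ℝ) + ε * Real.log (Y.card : ℝ) := by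
  have hTn : T.Nonempty := ⟨t0, ht0⟩
  set M := p ^ (j + 1) with hM
  set H := hh (cx p M) X with hH
  have hH0 : 0 ≤ H := hh_nonneg _ X hX
  have hY0 : (0 : ℝ) < (Y0.card : ℝ) := by exact_mod_cast Finset.card_pos.2 hne
  have hYY : (Y0.card : ℝ) ≤ (Y.card : ℝ) := by exact_mod_cast Finset.card_le_card hsub
  have hlogY : Real.log (Y0.card : ℝ) ≤ Real.log (Y.card : ℝ) := Real.log_le_log hY0 hYY
  have hTc : (0 : ℝ) < (T.card : ℝ) := by exact_mod_cast Finset.card_pos.2 hTn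
  have hone : ∀ t ∈ T, dt t X Y ≤ L + ((if t = t0 then H else 0) +
      av X (fun x => dt t (cl (cx p M) X x) Y0)) := by
    intro t ht
    have h1 := dt_restrict t (Finset.Subset.refl X) hsub hX hne
    by_cases htt : t = t0
    · rw [if_pos htt]
      have h2 := dt_left_any (cx p M) t X Y0 hX hne
      linarith
    · rw [if_neg htt]
      have h2 := dt_zero t t0 p j hp (fun h => htt (hT t ht t0 ht0 h)) X Y0 hX hXp hne hdiv
      linarith
  have hav := av_mono T _ _ hone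
  rw [av_add, av_const T hTn, av_add, av_comm] at hav
  have hind : av T (fun t => if t = t0 then H else 0) = H / (T.card : ℝ) := by
    unfold av
    rw [Finset.sum_ite_eq' T t0 (fun _ => H), if_pos ht0]
  rw [hind] at hav
  have hav2 : av X (fun x => av T (fun t => dt t (cl (cx p M) X x) Y0)) ≤
      av X (fun x => ε * Real.log ((cl (cx p M) X x).card : ℝ) +
        ε * Real.log (Y0.card : ℝ)) := by
    refine av_mono X _ _ (fun x hx => ?_)
    exact IH (cl (cx p M) X x) ⟨x, mem_cl_self _ _ _ hx⟩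
      (fun z hz => hXp z ((Finset.mem_filter.1 hz).1))
  rw [av_add, av_const X hX, av_mul, log_card_eq] at hav2
  have e1 : ε * Real.log (Y0.card : ℝ) ≤ ε * Real.log (Y.card : ℝ) :=
    mul_le_mul_of_nonneg_left hlogY hε.le
  have e2 : L ≤ ε / 2 * H := by
    rw [div_le_iff₀ hε] at hB
    linarith
  have e3 : H / (T.card : ℝ) ≤ ε / 2 * H := by
    rw [div_le_iff₀ hTc]
    rw [div_le_iff₀ hε] at hm
    have : 1 * H ≤ (ε / 2 * (T.card : ℝ)) * H := by
      apply mul_le_mul_of_nonneg_right _ hH0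
      linarith
    linarith
  have e4 : ε * (Real.log (X.card : ℝ) - hh (cx p M) X) =
      ε * Real.log (X.card : ℝ) - ε * H := by
    rw [← hH]
    ring
  rw [e4] at hav2
  linarith

/-- Case C: `dt_right` for every `t` -/
theorem caseC (ε : ℝ) (hε : 0 < ε) (T : Finset ℕ) (hTn : T.Nonempty) (p j : ℕ)
    (hp : p.Prime) (X : Finset ℕ) (hX : X.Nonempty) (hXp : ∀ x ∈ X, 0 < x) (Y : Finset ℕ)
    (hY : Y.Nonempty)
    (hC : hh (cx p (p ^ (j + 1))) X ≤ ε * hh (rY (p ^ (j + 1))) Y)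
    (IH : ∀ X' : Finset ℕ, X'.Nonempty → (∀ x ∈ X', 0 < x) → ∀ y ∈ Y,
      av T (fun t => dt t X' (cl (rY (p ^ (j + 1))) Y y)) ≤
        ε * Real.log (X'.card : ℝ) + ε * Real.log ((cl (rY (p ^ (j + 1))) Y y).card : ℝ)) :
    av T (fun t => dt t X Y) ≤ ε * Real.log (X.card : ℝ) + ε * Real.log (Y.card : ℝ) := by
  set M := p ^ (j + 1) with hM
  have hH0 : 0 ≤ hh (cx p M) X := hh_nonneg _ X hX
  have hav := av_mono T _ _ (fun t (_ : t ∈ T) => dt_right t p j hp X Y hX hXp hY)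
  rw [av_add, av_const T hTn, av_comm] at hav
  have hav2 : av X (fun x => av T (fun t => av Y (fun y =>
        dt t (cl (cx p M) X x) (cl (rY M) Y y)))) ≤
      av X (fun x => ε * Real.log ((cl (cx p M) X x).card : ℝ) +
        ε * (Real.log (Y.card : ℝ) - hh (rY M) Y)) := by
    refine av_mono X _ _ (fun x hx => ?_)
    rw [av_comm]
    have h1 : av Y (fun y => av T (fun t => dt t (cl (cx p M) X x) (cl (rY M) Y y))) ≤
        av Y (fun y => ε * Real.log ((cl (cx p M) X x).card : ℝ) +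
          ε * Real.log ((cl (rY M) Y y).card : ℝ)) := by
      refine av_mono Y _ _ (fun y hy => ?_)
      exact IH (cl (cx p M) X x) ⟨x, mem_cl_self _ _ _ hx⟩
        (fun z hz => hXp z ((Finset.mem_filter.1 hz).1)) y hy
    rw [av_add, av_const Y hY, av_mul, log_card_eq] at h1
    exact h1
  rw [av_add, av_const X hX, av_mul, log_card_eq] at hav2
  have e1 : ε * (Real.log (X.card : ℝ) - hh (cx p M) X) =
      ε * Real.log (X.card : ℝ) - ε * hh (cx p M) X := by ring
  have e2 : ε * (Real.log (Y.card : ℝ) - hh (rY M) Y) =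
      ε * Real.log (Y.card : ℝ) - ε * hh (rY M) Y := by ring
  rw [e1, e2] at hav2
  have e3 : 0 ≤ ε * hh (cx p M) X := mul_nonneg hε.le hH0
  linarith

end Pool.Agent.Helper23.BK
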