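import Pool.Agent.Helper23.BK.EntE
import Pool.Agent.Helper23.BK.AvgE

set_option autoImplicit false

/-! # Project BK, case E -/

namespace Pool.Agent.Helper23.BK

open Finset Pool.Agent.Helper24.MD

/-- the cost of passing to a subset of relative size at least `1 - δ` -/
private theorem CaseE_log {δ a b : ℝ} (hδ : 0 < δ) (hδ1 : δ ≤ 1 / 2) (ha : 0 < a)
    (h : (1 - δ) * a ≤ b) : Real.log a - Real.log b ≤ 2 * δ := by
  have h1 : 0 < 1 - δ := by linarith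
  have hb : 0 < b := lt_of_lt_of_le (mul_pos h1 ha) h
  have h2 : Real.log ((1 - δ) * a) ≤ Real.log b := Real.log_le_log (mul_pos h1 ha) h
  rw [Real.log_mul h1.ne' ha.ne'] at h2
  have h3 : Real.log ((1 - δ)⁻¹) ≤ (1 - δ)⁻¹ - 1 := Real.log_le_sub_one_of_pos (inv_pos.2 h1)
  rw [Real.log_inv] at h3
  have h4 : (1 - δ)⁻¹ - 1 ≤ 2 * δ := by
    have h5 : (1 - δ)⁻¹ - 1 = δ / (1 - δ) := by
      field_simp
      ring
    rw [h5, div_le_iff₀ h1]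
    nlinarith
  linarith

/-- Case E: `trunc` for `X` (map `cx`) and `Y` (map `rY`), `dt_restrict` (cost `≤ 4 δ`),
`avg_trunc`, `ent_trunc`. -/
theorem caseE (ε κ C4 δ : ℝ) (hε : 0 < ε) (hκ : 0 < κ) (hκ1 : κ ≤ 1) (hC4 : 0 ≤ C4)
    (hδ : 0 < δ) (hδ1 : δ ≤ 1 / 2) (hδκ : δ ≤ κ / 4) (r : ℕ) (hr : Real.exp (C4 / δ) ≤ (r : ℝ))
    (T : Finset ℕ) (hTn : T.Nonempty)
    (hm : 4 * δ + ((r : ℝ) + (r : ℝ) ^ 4) * Real.log r / (T.card : ℝ) ≤ ε * (κ ^ 2 / 8))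
    (p j t0 : ℕ) (hp : p.Prime) (hT : Inj T p) (X : Finset ℕ) (hX : X.Nonempty)
    (hXp : ∀ x ∈ X, 0 < x) (Y : Finset ℕ) (hY : Y.Nonempty)
    (hlo : κ / 2 * (Y.card : ℝ) ≤ ((Y.filter (fun y => p ^ (j + 1) ∣ y + t0)).card : ℝ))
    (hhi : ((Y.filter (fun y => p ^ (j + 1) ∣ y + t0)).card : ℝ) ≤
      (1 - κ / 2) * (Y.card : ℝ))
    (hX4 : hh (cx p (p ^ (j + 1))) X ≤ C4) (hY4 : hh (rY (p ^ (j + 1))) Y ≤ C4)
    (IH : ∀ X' : Finset ℕ, X'.Nonempty → (∀ x ∈ X', 0 < x) → ∀ Y' ⊆ Y, Y'.Nonempty →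
      (∃ y ∈ Y, Y' ⊆ cl (rY (p ^ (j + 1))) Y y) →
      av T (fun t => dt t X' Y') ≤ ε * Real.log (X'.card : ℝ) + ε * Real.log (Y'.card : ℝ)) :
    av T (fun t => dt t X Y) ≤ ε * Real.log (X.card : ℝ) + ε * Real.log (Y.card : ℝ) := by
  obtain ⟨X', hXs, hXn, hXδ, hXi, -⟩ :=
    trunc (cx p (p ^ (j + 1))) X hX C4 δ hX4 hC4 hδ hδ1
  obtain ⟨Y', hYs, hYn, hYδ, hYi, hYu⟩ :=
    trunc (rY (p ^ (j + 1))) Y hY C4 δ hY4 hC4 hδ hδ1
  have hXc : (0 : ℝ) < (X.card : ℝ) := by exact_mod_cast hX.card_pos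
  have hYc : (0 : ℝ) < (Y.card : ℝ) := by exact_mod_cast hY.card_pos
  have hXc' : (0 : ℝ) < (X'.card : ℝ) := by exact_mod_cast hXn.card_pos
  have hYc' : (0 : ℝ) < (Y'.card : ℝ) := by exact_mod_cast hYn.card_pos
  have hXr : (X'.image (cx p (p ^ (j + 1)))).card ≤ r := by
    exact_mod_cast hXi.trans hr
  have hYr : (Y'.image (rY (p ^ (j + 1)))).card ≤ r := by
    exact_mod_cast hYi.trans hr
  have h1 := CaseE_log hδ hδ1 hXc hXδ
  have h2 := CaseE_log hδ hδ1 hYc hYδ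
  -- passing to the subsets
  have h3 : av T (fun t => dt t X Y) ≤ 4 * δ + av T (fun t => dt t X' Y') := by
    have h4 := av_mono T (fun t => dt t X Y) (fun t => 4 * δ + dt t X' Y') (fun t _ => by
      have := dt_restrict t hXs hYs hXn hYn
      linarith)
    rw [av_add, av_const T hTn] at h4
    exact h4
  have h5 := avg_trunc ε hε.le T hTn p j hp hT r X' hXn (fun x hx => hXp x (hXs hx)) Y' hYn
    hXr hYr (fun X'' hX'' hX''p y hy => by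
      refine IH X'' hX'' hX''p (cl (rY (p ^ (j + 1))) Y' y) ?_ ?_ ⟨y, hYs hy, ?_⟩
      · exact (Finset.filter_subset _ _).trans hYs
      · exact ⟨y, mem_cl_self _ _ y hy⟩
      · intro z hz
        unfold cl at hz ⊢
        rw [Finset.mem_filter] at hz ⊢
        exact ⟨hYs hz.1, hz.2⟩)
  have h6 := ent_trunc κ δ hκ hκ1 hδ hδκ p j t0 hp Y Y' hY hYs hYn hYδ hYu hlo hhi
  have h7 : Real.log (X'.card : ℝ) ≤ Real.log (X.card : ℝ) :=
    Real.log_le_log hXc' (by exact_mod_cast Finset.card_le_card hXs)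
  have h8 : Real.log (Y'.card : ℝ) ≤ Real.log (Y.card : ℝ) :=
    Real.log_le_log hYc' (by exact_mod_cast Finset.card_le_card hYs)
  have h9 := mul_le_mul_of_nonneg_left h6 hε.le
  have h10 := mul_le_mul_of_nonneg_left h7 hε.le
  have h11 := mul_le_mul_of_nonneg_left h8 hε.le
  have h12 : ε * (Real.log (Y'.card : ℝ) - hh (rY (p ^ (j + 1))) Y') =
      ε * Real.log (Y'.card : ℝ) - ε * hh (rY (p ^ (j + 1))) Y' := by ring
  rw [h12] at h5
  linarith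

end Pool.Agent.Helper23.BK
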