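import Pool.Agent.Helper23.BK.Defs

set_option autoImplicit false

/-! # Project BK, Class: the bad primes -/

namespace Pool.Agent.Helper23.BK

open Finset Pool.Agent.Helper24.MD

theorem fact_eq_of_modEq {p k n m : ℕ} (hp : p.Prime) (h : n ≡ m [MOD p ^ k])
    (hn : ¬ p ^ k ∣ n) : n.factorization p = m.factorization p := by
  have hm : ¬ p ^ k ∣ m := fun hd => hn ((h.dvd_iff dvd_rfl).2 hd)
  have hn0 : n ≠ 0 := fun h0 => hn (h0 ▸ dvd_zero _)
  have hm0 : m ≠ 0 := fun h0 => hm (h0 ▸ dvd_zero _)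
  have key : ∀ {a b : ℕ}, a ≡ b [MOD p ^ k] → ¬ p ^ k ∣ a → a ≠ 0 → b ≠ 0 →
      a.factorization p ≤ b.factorization p := by
    intro a b hab ha ha0 hb0
    have h1 : a.factorization p < k := by
      by_contra hc
      exact ha ((hp.pow_dvd_iff_le_factorization ha0).2 (not_lt.1 hc))
    have h2 : p ^ a.factorization p ∣ a := (hp.pow_dvd_iff_le_factorization ha0).2 le_rfl
    exact (hp.pow_dvd_iff_le_factorization hb0).1 ((hab.dvd_iff (pow_dvd_pow p h1.le)).1 h2)
  exact le_antisymm (key h hn hn0 hm0) (key h.symm hm hm0 hn0)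

theorem inj_of_notMem_bad {T : Finset ℕ} {p : ℕ} (hp : p.Prime) (h : p ∉ bad T) : Inj T p := by
  have key : ∀ t ∈ T, ∀ t' ∈ T, t' < t → ((t : ℕ) : ZMod p) ≠ ((t' : ℕ) : ZMod p) := by
    intro t ht t' ht' hlt heq
    apply h
    rw [bad, Finset.mem_biUnion]
    refine ⟨(t, t'), Finset.mem_product.2 ⟨ht, ht'⟩, ?_⟩
    rw [Nat.mem_primeFactors]
    refine ⟨hp, ?_, by show t - t' ≠ 0; omega⟩
    have h1 : t' ≡ t [MOD p] := (ZMod.natCast_eq_natCast_iff t' t p).1 heq.symm
    exact (Nat.modEq_iff_dvd' hlt.le).1 h1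
  intro t ht t' ht' heq
  rcases lt_trichotomy t t' with h1 | h1 | h1
  · exact absurd heq.symm (key t' ht' t ht h1)
  · exact h1
  · exact absurd heq (key t ht t' ht' h1)

/-- `Q = (∏ p ∈ bad T, p) ^ (s + 1)`, `s` larger than all valuations of differences of `T` (e.g.
`s = T.sup id`); `Y'` the largest class of `Y` modulo `Q`. For `p ∈ bad T` at most one `t ∈ T` has
`p ^ (s + 1) ∣ y + t`, the same for all `y ∈ Y'`; `T'` omits these `t`. For `t ∈ T'` the valuation
of `y + t` at `p` is at most `s` and determined by `y` modulo `Q`. -/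
theorem exists_class (T : Finset ℕ) : ∃ Q : ℕ, 0 < Q ∧ ∀ Y : Finset ℕ, Y.Nonempty →
    (∀ y ∈ Y, 0 < y) → ∃ T' ⊆ T, T.card ≤ T'.card + (bad T).card ∧ ∃ Y' ⊆ Y, Y'.Nonempty ∧
      Y.card ≤ Q * Y'.card ∧ ∀ p : ℕ, p.Prime → Inj T' p ∨
        ∀ t ∈ T', ∀ y ∈ Y', ∀ y' ∈ Y', (y + t).factorization p = (y' + t).factorization p := by
  classical
  set s := T.sup id with hs
  have hbp : ∀ p ∈ bad T, p.Prime := by
    intro p hp
    rw [bad, Finset.mem_biUnion] at hp
    obtain ⟨z, -, hz⟩ := hp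
    exact (Nat.mem_primeFactors.1 hz).1
  set Q := (∏ p ∈ bad T, p) ^ (s + 1) with hQ
  have hQ0 : 0 < Q := pow_pos (Finset.prod_pos fun p hp => (hbp p hp).pos) _
  refine ⟨Q, hQ0, fun Y hY _ => ?_⟩
  -- the largest class
  obtain ⟨r, hr, hmax⟩ := Finset.exists_max_image (Finset.range Q)
    (fun r => (Y.filter fun y => y % Q = r).card) ⟨0, Finset.mem_range.2 hQ0⟩
  have hcard : Y.card ≤ Q * (Y.filter fun y => y % Q = r).card := by
    have h1 : Y.card = ∑ r' ∈ Finset.range Q, (Y.filter fun y => y % Q = r').card :=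
      Finset.card_eq_sum_card_fiberwise fun y _ => by
        simpa using Nat.mod_lt y hQ0
    rw [h1]
    calc ∑ r' ∈ Finset.range Q, (Y.filter fun y => y % Q = r').card
        ≤ ∑ r' ∈ Finset.range Q, (Y.filter fun y => y % Q = r).card :=
          Finset.sum_le_sum fun r' hr' => hmax r' hr'
      _ = Q * (Y.filter fun y => y % Q = r).card := by
          rw [Finset.sum_const, Finset.card_range, smul_eq_mul]
  set Y' := Y.filter fun y => y % Q = r with hY'
  have hne : Y'.Nonempty := by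
    rw [← Finset.card_pos]
    have h2 : 0 < Y.card := Finset.card_pos.2 hY
    by_contra hc
    have h3 : Y'.card = 0 := by omega
    rw [h3] at hcard
    omega
  obtain ⟨y0, hy0⟩ := hne
  have hmod : ∀ y ∈ Y', y ≡ y0 [MOD Q] := by
    intro y hy
    have h1 : y % Q = r := (Finset.mem_filter.1 hy).2
    have h2 : y0 % Q = r := (Finset.mem_filter.1 hy0).2
    exact h1.trans h2.symm
  have hpQ : ∀ p ∈ bad T, p ^ (s + 1) ∣ Q := fun p hp =>
    pow_dvd_pow_of_dvd (Finset.dvd_prod_of_mem _ hp) _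
  refine ⟨T.filter fun t => ∀ p ∈ bad T, ¬ p ^ (s + 1) ∣ y0 + t, Finset.filter_subset _ _, ?_,
    Y', Finset.filter_subset _ _, ⟨y0, hy0⟩, hcard, ?_⟩
  · -- count
    have h1 : T ⊆ (T.filter fun t => ∀ p ∈ bad T, ¬ p ^ (s + 1) ∣ y0 + t) ∪
        (bad T).biUnion fun p => T.filter fun t => p ^ (s + 1) ∣ y0 + t := by
      intro t ht
      by_cases h : ∀ p ∈ bad T, ¬ p ^ (s + 1) ∣ y0 + t
      · exact Finset.mem_union_left _ (Finset.mem_filter.2 ⟨ht, h⟩)
      · push Not at h
        obtain ⟨p, hp, hd⟩ := h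
        exact Finset.mem_union_right _ (Finset.mem_biUnion.2 ⟨p, hp, Finset.mem_filter.2 ⟨ht, hd⟩⟩)
    have h2 : ((bad T).biUnion fun p => T.filter fun t => p ^ (s + 1) ∣ y0 + t).card ≤
        (bad T).card := by
      refine Finset.card_biUnion_le.trans ?_
      calc ∑ p ∈ bad T, (T.filter fun t => p ^ (s + 1) ∣ y0 + t).card ≤ ∑ p ∈ bad T, 1 := by
            refine Finset.sum_le_sum fun p hp => ?_
            rw [Finset.card_le_one]
            intro t ht t' ht'
            obtain ⟨h3, h4⟩ := Finset.mem_filter.1 ht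
            obtain ⟨h5, h6⟩ := Finset.mem_filter.1 ht'
            have hlt : ∀ u ∈ T, u < p ^ (s + 1) := by
              intro u hu
              have h7 : u ≤ s := Finset.le_sup (f := id) hu
              have h8 : s + 1 < p ^ (s + 1) := Nat.lt_pow_self (hbp p hp).one_lt
              omega
            have h9 : y0 + t ≡ y0 + t' [MOD p ^ (s + 1)] :=
              ((Nat.modEq_zero_iff_dvd).2 h4).trans ((Nat.modEq_zero_iff_dvd).2 h6).symm
            have h10 : t ≡ t' [MOD p ^ (s + 1)] := Nat.ModEq.add_left_cancel' y0 h9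
            exact Nat.ModEq.eq_of_lt_of_lt h10 (hlt t h3) (hlt t' h5)
        _ = (bad T).card := by simp
    exact (Finset.card_le_card h1).trans ((Finset.card_union_le _ _).trans (by omega))
  · intro p hp
    by_cases hb : p ∈ bad T
    · right
      intro t ht y hy y' hy'
      have h1 : ¬ p ^ (s + 1) ∣ y0 + t := (Finset.mem_filter.1 ht).2 p hb
      have h2 : ∀ z ∈ Y', (y0 + t).factorization p = (z + t).factorization p := by
        intro z hz
        refine fact_eq_of_modEq hp ?_ h1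
        exact Nat.ModEq.add_right t ((hmod z hz).symm.of_dvd (hpQ p hb))
      exact (h2 y hy).symm.trans (h2 y' hy')
    · left
      have h1 := inj_of_notMem_bad hp hb
      exact fun t ht t' ht' h => h1 t (Finset.mem_filter.1 ht).1 t' (Finset.mem_filter.1 ht').1 h

end Pool.Agent.Helper23.BK
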