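import Pool.Agent.Helper23.BK.Defs

set_option autoImplicit false

/-! # Project BK, `k`-fold products of translates -/

namespace Pool.Agent.Helper23.BK

open Finset Pool.Agent.Helper24.MD

/-- some `t ∈ T` is at most the average -/
theorem exists_le_av (T : Finset ℕ) (hT : T.Nonempty) (F : ℕ → ℝ) (c : ℝ) (h : av T F ≤ c) :
    ∃ t ∈ T, F t ≤ c := by
  by_contra hcon
  push Not at hcon
  have hpos : (0 : ℝ) < (T.card : ℝ) := by exact_mod_cast Finset.card_pos.2 hT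
  have h1 : ∑ g ∈ T, c < ∑ g ∈ T, F g := Finset.sum_lt_sum_of_nonempty hT hcon
  rw [Finset.sum_const, nsmul_eq_mul] at h1
  unfold av at h
  rw [div_le_iff₀ hpos] at h
  linarith [mul_comm c (T.card : ℝ)]

/-- the set of `k`-fold products of translates -/
def kp_X {k : ℕ} (t : Fin k → ℕ) (Y : Finset ℕ) : Finset ℕ :=
  (Fintype.piFinset (fun _ : Fin k => Y)).image
    (fun f : Fin k → ℕ => ∏ i, (f i + t i))

theorem kp_nonempty {k : ℕ} (t : Fin k → ℕ) {Y : Finset ℕ} (hY : Y.Nonempty) :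
    (kp_X t Y).Nonempty := by
  unfold kp_X
  exact (Fintype.piFinset_nonempty.2 fun _ => hY).image _

theorem kp_pos {k : ℕ} (t : Fin k → ℕ) {Y : Finset ℕ} (hYp : ∀ y ∈ Y, 0 < y) :
    ∀ x ∈ kp_X t Y, 0 < x := by
  intro x hx
  unfold kp_X at hx
  obtain ⟨f, hf, rfl⟩ := Finset.mem_image.1 hx
  rw [Fintype.mem_piFinset] at hf
  exact Finset.prod_pos fun i _ => Nat.add_pos_left (hYp _ (hf i)) _

theorem kp_card {k : ℕ} (t : Fin k → ℕ) (Y : Finset ℕ) : (kp_X t Y).card ≤ Y.card ^ k := by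
  unfold kp_X
  refine le_trans Finset.card_image_le ?_
  rw [Fintype.card_piFinset]
  simp

theorem kp_log {k : ℕ} (t : Fin k → ℕ) {Y : Finset ℕ} (hY : Y.Nonempty) :
    Real.log ((kp_X t Y).card : ℝ) ≤ (k : ℝ) * Real.log (Y.card : ℝ) := by
  have h1 : (0 : ℝ) < ((kp_X t Y).card : ℝ) := by
    exact_mod_cast Finset.card_pos.2 (kp_nonempty t hY)
  have h2 : ((kp_X t Y).card : ℝ) ≤ (Y.card : ℝ) ^ k := by exact_mod_cast kp_card t Y
  have h3 := Real.log_le_log h1 h2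
  rwa [Real.log_pow] at h3

theorem kp_sub {k : ℕ} (t : Fin k → ℕ) (t0 : ℕ) (Y : Finset ℕ) :
    sp t0 (kp_X t Y) Y ⊆ kp_X (Fin.cons t0 t : Fin (k + 1) → ℕ) Y := by
  intro z hz
  unfold sp at hz
  obtain ⟨x, hx, y, hy, rfl⟩ := Finset.mem_image₂.1 hz
  unfold kp_X at hx
  obtain ⟨f, hf, rfl⟩ := Finset.mem_image.1 hx
  unfold kp_X
  refine Finset.mem_image.2 ⟨Fin.cons y f, ?_, ?_⟩
  · rw [Fintype.mem_piFinset] at hf ⊢
    intro i
    refine Fin.cases ?_ (fun j => ?_) i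
    · simpa using hy
    · simpa using hf j
  · rw [Fin.prod_univ_succ]
    simp only [Fin.cons_zero, Fin.cons_succ]
    ring

/-- iteration (compare `Helper24/MD/KFold.lean`): `X_0 = {1}`, `X_(l+1) = sp t X_l Y`; all
`log |X_l| ≤ l log |Y|`. -/
theorem kfold (ε : ℝ) (hε : 0 ≤ ε) (T : Finset ℕ) (hT : T.Nonempty) (Y : Finset ℕ)
    (hY : Y.Nonempty) (hYp : ∀ y ∈ Y, 0 < y)
    (h : ∀ X : Finset ℕ, X.Nonempty → (∀ x ∈ X, 0 < x) → av T (fun t => dt t X Y) ≤
      ε * Real.log (X.card : ℝ) + ε * Real.log (Y.card : ℝ)) (k : ℕ) :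
    ∃ t : Fin k → ℕ, (∀ i, t i ∈ T) ∧
      (k : ℝ) * Real.log (Y.card : ℝ) - (k : ℝ) * ((k : ℝ) + 1) * ε * Real.log (Y.card : ℝ) ≤
        Real.log ((((Fintype.piFinset (fun _ : Fin k => Y)).image
          (fun f : Fin k → ℕ => ∏ i, (f i + t i))).card : ℕ) : ℝ) := by
  have hL : 0 ≤ Real.log (Y.card : ℝ) :=
    Real.log_nonneg (by exact_mod_cast Finset.card_pos.2 hY)
  change ∃ t : Fin k → ℕ, (∀ i, t i ∈ T) ∧
      (k : ℝ) * Real.log (Y.card : ℝ) - (k : ℝ) * ((k : ℝ) + 1) * ε * Real.log (Y.card : ℝ) ≤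
        Real.log (((kp_X t Y).card : ℕ) : ℝ)
  induction k with
  | zero =>
    refine ⟨Fin.elim0, fun i => i.elim0, ?_⟩
    have h1 : (1 : ℝ) ≤ ((kp_X (Fin.elim0 : Fin 0 → ℕ) Y).card : ℝ) := by
      exact_mod_cast Finset.card_pos.2 (kp_nonempty _ hY)
    have h2 := Real.log_nonneg h1
    simpa using h2
  | succ k ih =>
    obtain ⟨t, ht, htk⟩ := ih
    obtain ⟨t0, ht0, ht0k⟩ :=
      exists_le_av T hT _ _ (h (kp_X t Y) (kp_nonempty t hY) (kp_pos t hYp))
    refine ⟨Fin.cons t0 t, ?_, ?_⟩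
    · intro i
      refine Fin.cases ?_ (fun j => ?_) i
      · simpa using ht0
      · simpa using ht j
    · have hne : (sp t0 (kp_X t Y) Y).Nonempty := by
        unfold sp
        exact (kp_nonempty t hY).image₂ hY
      have h1 : Real.log ((sp t0 (kp_X t Y) Y).card : ℝ) ≤
          Real.log (((kp_X (Fin.cons t0 t : Fin (k + 1) → ℕ) Y).card : ℕ) : ℝ) := by
        refine Real.log_le_log (by exact_mod_cast Finset.card_pos.2 hne) ?_
        exact_mod_cast Finset.card_le_card (kp_sub t t0 Y)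
      have h2 := kp_log t hY
      have h3 : ε * Real.log ((kp_X t Y).card : ℝ) ≤ ε * ((k : ℝ) * Real.log (Y.card : ℝ)) :=
        mul_le_mul_of_nonneg_left h2 hε
      have h4 : 0 ≤ ((k : ℝ) + 1) * (ε * Real.log (Y.card : ℝ)) :=
        mul_nonneg (by positivity) (mul_nonneg hε hL)
      unfold dt at ht0k
      refine le_trans ?_ h1
      push_cast
      nlinarith [htk, ht0k, h3, h4]

end Pool.Agent.Helper23.BK
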