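import Pool.Agent.Helper23.BK.PropT
import Pool.Agent.Helper23.BK.Class
import Pool.Agent.Helper23.BK.KFold

set_option autoImplicit false

/-! # Project BK, Core: the theorems for positive integers -/

namespace Pool.Agent.Helper23.BK

open Finset Pool.Agent.Helper24.MD

/-- Proposition T for a large class of `Y` and a large part of `T` -/
theorem core (ε : ℝ) (hε : 0 < ε) (hε1 : ε ≤ 1) : ∃ m : ℕ, 2 ≤ m ∧ ∀ T : Finset ℕ,
    m + (bad T).card ≤ T.card → ∃ Q : ℕ, 0 < Q ∧ ∀ Y : Finset ℕ, Y.Nonempty →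
      (∀ y ∈ Y, 0 < y) → ∃ T' ⊆ T, T'.Nonempty ∧ ∃ Y' ⊆ Y, Y'.Nonempty ∧
        Y.card ≤ Q * Y'.card ∧ ∀ X : Finset ℕ, X.Nonempty → (∀ x ∈ X, 0 < x) →
          av T' (fun t => dt t X Y') ≤
            ε * Real.log (X.card : ℝ) + ε * Real.log (Y'.card : ℝ) := by
  obtain ⟨m, hm, hprop⟩ := propT ε hε hε1
  refine ⟨m, hm, ?_⟩
  intro T hT
  obtain ⟨Q, hQ, hcl⟩ := exists_class T
  refine ⟨Q, hQ, ?_⟩
  intro Y hY hYp
  obtain ⟨T', hT', hcard, Y', hY', hYn, hYc, hgood⟩ := hcl Y hY hYp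
  have hmT : m ≤ T'.card := by omega
  refine ⟨T', hT', Finset.card_pos.1 (by omega), Y', hY', hYn, hYc, ?_⟩
  intro X hX hXp
  exact hprop T' hmT Y' hYn (fun y hy => hYp y (hY' hy)) hgood X hX hXp

end Pool.Agent.Helper23.BK
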