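import Pool.Agent.Helper24.MD.Pairs
import Pool.Agent.Helper24.MD.Trunc
import Pool.Agent.Helper24.MD.Mid

set_option autoImplicit false

/-!
# Project BK (MP_120218): definitions

`av`, `cl`, `hh`, `rY` (averages, classes, entropies, residues) are those of `Helper24/MD/Defs.lean`.
-/

namespace Pool.Agent.Helper23.BK

open Finset Pool.Agent.Helper24.MD

/-- `X (Y + t)` -/
def sp (t : ℕ) (X Y : Finset ℕ) : Finset ℕ := Finset.image₂ (fun x y : ℕ => x * (y + t)) X Y

/-- the deficit of `X (Y + t)` -/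
noncomputable def dt (t : ℕ) (X Y : Finset ℕ) : ℝ :=
  Real.log (X.card : ℝ) + Real.log (Y.card : ℝ) - Real.log ((sp t X Y).card : ℝ)

/-- the valuation of `x` at `p` and the residue modulo `M` of the cofactor -/
noncomputable def cx (p M : ℕ) (x : ℕ) : ℕ × ZMod M :=
  (x.factorization p, ((x / p ^ x.factorization p : ℕ) : ZMod M))

/-- every valuation is nearly constant on `Z` -/
def Rare (κ : ℝ) (Z : Finset ℕ) : Prop :=
  ∀ p : ℕ, ∃ e : ℕ, (1 - κ) * (Z.card : ℝ) ≤
    ((Z.filter (fun z => z.factorization p = e)).card : ℝ)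

/-- the exponents of the primes below `s` -/
noncomputable def fz (s : ℕ) (n : ℕ) : ℕ →₀ ℕ := n.factorization.filter (fun q => q < s)

/-- some value of the valuation at `s` has frequency at least `1 - t0` on `A` -/
def Atom (t0 : ℝ) (s : ℕ) (A : Finset ℕ) : Prop :=
  ∃ a ∈ A, (1 - t0) * (A.card : ℝ) ≤
    ((cl (fun n : ℕ => n.factorization s) A a).card : ℝ)

/-- `T` is injective modulo `p` -/
def Inj (T : Finset ℕ) (p : ℕ) : Prop :=
  ∀ t ∈ T, ∀ t' ∈ T, ((t : ℕ) : ZMod p) = ((t' : ℕ) : ZMod p) → t = t'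

/-- `x (y + t)` determines the classes of `x` and `y` -/
def Sep (t p j : ℕ) (X Y : Finset ℕ) : Prop :=
  ∀ x ∈ X, ∀ x' ∈ X, ∀ y ∈ Y, ∀ y' ∈ Y, x * (y + t) = x' * (y' + t) →
    cx p (p ^ (j + 1)) x = cx p (p ^ (j + 1)) x' ∧ rY (p ^ (j + 1)) y = rY (p ^ (j + 1)) y'

/-- the primes dividing a difference of two elements of `T` -/
def bad (T : Finset ℕ) : Finset ℕ :=
  (T ×ˢ T).biUnion (fun z => (z.1 - z.2).primeFactors)

end Pool.Agent.Helper23.BK
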