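import Pool.Agent.Helper23.BK.Defs

set_option autoImplicit false

/-! # Project BK, EntE: the entropy that remains after truncation -/

namespace Pool.Agent.Helper23.BK

open Finset Pool.Agent.Helper24.MD

/-- `Y0 = {y : p ^ (j + 1) ∣ y + t0}` is one class modulo `p ^ (j + 1)`; as `δ ≤ κ / 4` it lies in
the union `Y'` of classes, and `κ / 2 ≤ |Y0| / |Y'| ≤ 1 - κ / 4`; use `hh_lower` of
`Helper24/MD/Mid.lean` with `Yp = Y0` and `log (1 / u) ≥ 1 - u`. -/
theorem ent_trunc (κ δ : ℝ) (hκ : 0 < κ) (hκ1 : κ ≤ 1) (hδ : 0 < δ) (hδκ : δ ≤ κ / 4)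
    (p j t0 : ℕ) (hp : p.Prime) (Y Y' : Finset ℕ) (hY : Y.Nonempty) (hsub : Y' ⊆ Y)
    (hne : Y'.Nonempty) (hδY : (1 - δ) * (Y.card : ℝ) ≤ (Y'.card : ℝ))
    (hun : ∀ x ∈ Y', ∀ y ∈ Y, rY (p ^ (j + 1)) y = rY (p ^ (j + 1)) x → y ∈ Y')
    (hlo : κ / 2 * (Y.card : ℝ) ≤ ((Y.filter (fun y => p ^ (j + 1) ∣ y + t0)).card : ℝ))
    (hhi : ((Y.filter (fun y => p ^ (j + 1) ∣ y + t0)).card : ℝ) ≤
      (1 - κ / 2) * (Y.card : ℝ)) :
    κ ^ 2 / 8 ≤ hh (rY (p ^ (j + 1))) Y' := by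
  classical
  set M := p ^ (j + 1) with hM
  set Y0 := Y.filter (fun y => M ∣ y + t0) with hY0
  have ha : (0 : ℝ) < Y.card := by exact_mod_cast hY.card_pos
  have hb : (0 : ℝ) < Y'.card := by exact_mod_cast hne.card_pos
  have hba : (Y'.card : ℝ) ≤ Y.card := by exact_mod_cast Finset.card_le_card hsub
  have hc : (0 : ℝ) < Y0.card := lt_of_lt_of_le (by positivity) hlo
  have hcong : ∀ y z : ℕ, rY M z = rY M y → (M ∣ y + t0 ↔ M ∣ z + t0) := by
    intro y z h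
    unfold rY at h
    rw [← ZMod.natCast_eq_zero_iff, ← ZMod.natCast_eq_zero_iff, Nat.cast_add, Nat.cast_add, h]
  have hres : ∀ y z : ℕ, M ∣ y + t0 → M ∣ z + t0 → rY M z = rY M y := by
    intro y z hy hz
    rw [← ZMod.natCast_eq_zero_iff, Nat.cast_add] at hy hz
    unfold rY
    exact add_right_cancel (hz.trans hy.symm)
  -- the class meets `Y'`
  obtain ⟨x, hx0, hx1⟩ : ∃ x ∈ Y0, x ∈ Y' := by
    by_contra hcon
    push Not at hcon
    have h1 : Y0 ⊆ Y \ Y' := fun y hy =>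
      Finset.mem_sdiff.mpr ⟨(Finset.mem_filter.mp hy).1, hcon y hy⟩
    have h2 : (Y0.card : ℝ) ≤ Y.card - Y'.card := by
      have h3 := Finset.card_le_card h1
      rw [Finset.card_sdiff_of_subset hsub] at h3
      have h4 : (Y0.card : ℝ) ≤ ((Y.card - Y'.card : ℕ) : ℝ) := by exact_mod_cast h3
      rwa [Nat.cast_sub (Finset.card_le_card hsub)] at h4
    have h5 : (κ / 2) * (Y.card : ℝ) ≤ δ * Y.card := by linarith
    have h6 : κ / 2 ≤ δ := le_of_mul_le_mul_right h5 ha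
    linarith
  have hsub0 : Y0 ⊆ Y' := by
    intro y hy
    exact hun x hx1 y (Finset.mem_filter.mp hy).1
      (hres x y (Finset.mem_filter.mp hx0).2 (Finset.mem_filter.mp hy).2)
  have key := hh_lower (rY M) Y' Y0 hne hsub0 ⟨x, hx0⟩ (by
    intro y hy z hz
    have hz' := Finset.mem_filter.mp hz
    exact Finset.mem_filter.mpr ⟨hsub hz'.1, (hcong y z hz'.2).mp (Finset.mem_filter.mp hy).2⟩)
  refine le_trans ?_ key
  have hlog : 1 - (Y0.card : ℝ) / Y'.card ≤ Real.log (Y'.card : ℝ) - Real.log (Y0.card : ℝ) := by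
    have h1 := Real.one_sub_inv_le_log_of_pos (div_pos hb hc)
    rw [inv_div, Real.log_div hb.ne' hc.ne'] at h1
    exact h1
  have hu1 : κ / 2 ≤ (Y0.card : ℝ) / Y'.card := by
    rw [le_div_iff₀ hb]
    exact (mul_le_mul_of_nonneg_left hba (by linarith)).trans hlo
  have hu2 : κ / 4 ≤ 1 - (Y0.card : ℝ) / Y'.card := by
    have h1 : (Y0.card : ℝ) / Y'.card ≤ 1 - κ / 4 := by
      rw [div_le_iff₀ hb]
      have h2 : (1 - κ / 4) * ((1 - κ / 4) * (Y.card : ℝ)) ≤ (1 - κ / 4) * (Y'.card : ℝ) := by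
        refine mul_le_mul_of_nonneg_left ?_ (by linarith)
        exact (mul_le_mul_of_nonneg_right (by linarith) ha.le).trans hδY
      have h3 : (1 - κ / 2) * (Y.card : ℝ) ≤ (1 - κ / 4) * ((1 - κ / 4) * (Y.card : ℝ)) := by
        nlinarith [mul_nonneg (sq_nonneg κ) ha.le]
      linarith
    linarith
  have h8 : κ ^ 2 / 8 = κ / 2 * (κ / 4) := by ring
  rw [h8]
  exact mul_le_mul hu1 (hu2.trans hlog) (by linarith) (by linarith)

end Pool.Agent.Helper23.BK
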