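import Pool.Agent.Helper23.BK.Defs

set_option autoImplicit false

/-! # Project BK, Sides: sets of integers and sets of positive integers -/

namespace Pool.Agent.Helper23.BK

open Finset Pool.Agent.Helper24.MD

/-- the primes dividing a difference of two elements of `T` -/
def badZ (T : Finset ℤ) : Finset ℕ :=
  (T ×ˢ T).biUnion (fun z => (z.1 - z.2).natAbs.primeFactors)

/-- `L` with `|t| ≤ L` for all `t ∈ T` -/
def bd (T : Finset ℤ) : ℕ := T.sup Int.natAbs

theorem le_bd (T : Finset ℤ) (t : ℤ) (ht : t ∈ T) : -(bd T : ℤ) ≤ t ∧ t ≤ bd T := by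
  have h1 : t.natAbs ≤ bd T := Finset.le_sup (f := Int.natAbs) ht
  omega

/-- `T` moved to the right of `0` -/
def tp (T : Finset ℤ) : Finset ℕ := T.image (fun t : ℤ => (t + (bd T : ℤ)).toNat)

/-- `-T` moved to the right of `0` -/
def tm (T : Finset ℤ) : Finset ℕ := T.image (fun t : ℤ => ((bd T : ℤ) - t).toNat)

theorem card_tp (T : Finset ℤ) : (tp T).card = T.card := by
  unfold tp
  apply Finset.card_image_of_injOn
  intro a ha b hb hab
  have h1 := le_bd T a ha
  have h2 := le_bd T b hb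
  simp only at hab
  omega

theorem card_tm (T : Finset ℤ) : (tm T).card = T.card := by
  unfold tm
  apply Finset.card_image_of_injOn
  intro a ha b hb hab
  have h1 := le_bd T a ha
  have h2 := le_bd T b hb
  simp only at hab
  omega

theorem bad_tp (T : Finset ℤ) : bad (tp T) ⊆ badZ T := by
  intro p hp
  unfold bad at hp
  unfold badZ
  rw [Finset.mem_biUnion] at hp ⊢
  obtain ⟨⟨a, b⟩, hab, hp⟩ := hp
  rw [Finset.mem_product] at hab
  obtain ⟨s, hs, hs'⟩ := Finset.mem_image.1 hab.1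
  obtain ⟨t, ht, ht'⟩ := Finset.mem_image.1 hab.2
  refine ⟨(s, t), Finset.mk_mem_product hs ht, ?_⟩
  have h1 := le_bd T s hs
  have h2 := le_bd T t ht
  simp only at hs' ht' hp ⊢
  rw [Nat.mem_primeFactors] at hp ⊢
  have h3 : (s - t).natAbs = a - b := by
    have : a - b ≠ 0 := hp.2.2
    omega
  rw [h3]
  exact hp

theorem bad_tm (T : Finset ℤ) : bad (tm T) ⊆ badZ T := by
  intro p hp
  unfold bad at hp
  unfold badZ
  rw [Finset.mem_biUnion] at hp ⊢
  obtain ⟨⟨a, b⟩, hab, hp⟩ := hp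
  rw [Finset.mem_product] at hab
  obtain ⟨s, hs, hs'⟩ := Finset.mem_image.1 hab.1
  obtain ⟨t, ht, ht'⟩ := Finset.mem_image.1 hab.2
  refine ⟨(s, t), Finset.mk_mem_product hs ht, ?_⟩
  have h1 := le_bd T s hs
  have h2 := le_bd T t ht
  simp only at hs' ht' hp ⊢
  rw [Nat.mem_primeFactors] at hp ⊢
  have h3 : (s - t).natAbs = a - b := by
    have : a - b ≠ 0 := hp.2.2
    omega
  rw [h3]
  exact hp

/-- one of the two sides of a set of integers -/
theorem sides (T B : Finset ℤ) : ∃ σ : ℤ, (σ = 1 ∨ σ = -1) ∧ ∃ TN Y : Finset ℕ,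
    (TN = tp T ∨ TN = tm T) ∧ (∀ y ∈ Y, 0 < y) ∧ B.card ≤ 2 * Y.card + (2 * bd T + 1) ∧
      ∀ u ∈ TN, ∃ t ∈ T, ∀ y ∈ Y, ∃ b ∈ B, b + t = σ * ((y : ℤ) + u) := by
  classical
  obtain ⟨P, hP⟩ : ∃ P : Finset ℤ, P = B.filter (fun b => (bd T : ℤ) < b) := ⟨_, rfl⟩
  obtain ⟨R, hR⟩ : ∃ R : Finset ℤ, R = B.filter (fun b => b < -(bd T : ℤ)) := ⟨_, rfl⟩
  have hsum : B.card ≤ P.card + R.card + (2 * bd T + 1) := by
    have h1 : B ⊆ (P ∪ R) ∪ Finset.Icc (-(bd T : ℤ)) (bd T : ℤ) := by
      intro b hb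
      rw [Finset.mem_union, Finset.mem_union, hP, hR, Finset.mem_filter, Finset.mem_filter,
        Finset.mem_Icc]
      by_cases h1 : (bd T : ℤ) < b
      · exact Or.inl (Or.inl ⟨hb, h1⟩)
      · by_cases h2 : b < -(bd T : ℤ)
        · exact Or.inl (Or.inr ⟨hb, h2⟩)
        · exact Or.inr ⟨not_lt.1 h2, not_lt.1 h1⟩
    have h2 : (Finset.Icc (-(bd T : ℤ)) (bd T : ℤ)).card = 2 * bd T + 1 := by
      rw [Int.card_Icc]
      omega
    have h3 := (Finset.card_le_card h1).trans (Finset.card_union_le _ _)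
    have h4 := Finset.card_union_le P R
    omega
  by_cases hPR : R.card ≤ P.card
  · refine ⟨1, Or.inl rfl, tp T, P.image (fun b : ℤ => (b - (bd T : ℤ)).toNat), Or.inl rfl, ?_, ?_, ?_⟩
    · intro y hy
      obtain ⟨b, hb, rfl⟩ := Finset.mem_image.1 hy
      rw [hP, Finset.mem_filter] at hb
      have := hb.2
      omega
    · rw [Finset.card_image_of_injOn]
      · omega
      · intro a ha b hb hab
        rw [Finset.mem_coe, hP, Finset.mem_filter] at ha hb
        simp only at hab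
        omega
    · intro u hu
      obtain ⟨t, ht, rfl⟩ := Finset.mem_image.1 hu
      refine ⟨t, ht, ?_⟩
      intro y hy
      obtain ⟨b, hb, rfl⟩ := Finset.mem_image.1 hy
      rw [hP, Finset.mem_filter] at hb
      refine ⟨b, hb.1, ?_⟩
      have h1 := le_bd T t ht
      have h2 := hb.2
      omega
  · refine ⟨-1, Or.inr rfl, tm T, R.image (fun b : ℤ => (-b - (bd T : ℤ)).toNat), Or.inr rfl, ?_, ?_, ?_⟩
    · intro y hy
      obtain ⟨b, hb, rfl⟩ := Finset.mem_image.1 hy
      rw [hR, Finset.mem_filter] at hb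
      have := hb.2
      omega
    · rw [Finset.card_image_of_injOn]
      · omega
      · intro a ha b hb hab
        rw [Finset.mem_coe, hR, Finset.mem_filter] at ha hb
        simp only at hab
        omega
    · intro u hu
      obtain ⟨t, ht, rfl⟩ := Finset.mem_image.1 hu
      refine ⟨t, ht, ?_⟩
      intro y hy
      obtain ⟨b, hb, rfl⟩ := Finset.mem_image.1 hy
      rw [hR, Finset.mem_filter] at hb
      refine ⟨b, hb.1, ?_⟩
      have h1 := le_bd T t ht
      have h2 := hb.2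
      omega

end Pool.Agent.Helper23.BK
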