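import Pool.Agent.Helper23.BK.Core
import Pool.Agent.Helper23.BK.Sides

set_option autoImplicit false

/-! # Project BK, the theorems for sets of integers -/

namespace Pool.Agent.Helper23.BK

open Finset Pool.Agent.Helper24.MD

private theorem halfX (A : Finset ℤ) (hA : A.Nonempty) (h0 : (0 : ℤ) ∉ A) :
    ∃ σ : ℤ, (σ = 1 ∨ σ = -1) ∧ ∃ Y : Finset ℕ,
    Y.Nonempty ∧ (∀ y ∈ Y, 0 < y ∧ σ * (y : ℤ) ∈ A) ∧ A.card ≤ 2 * Y.card := by
  classical
  obtain ⟨P, hP⟩ : ∃ P : Finset ℤ, P = A.filter (fun a => 0 < a) := ⟨_, rfl⟩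
  obtain ⟨Q, hQ⟩ : ∃ Q : Finset ℤ, Q = A.filter (fun a => a < 0) := ⟨_, rfl⟩
  have hsum : A.card ≤ P.card + Q.card := by
    have h1 : A ⊆ P ∪ Q := by
      intro a ha
      rw [Finset.mem_union, hP, hQ, Finset.mem_filter, Finset.mem_filter]
      rcases lt_trichotomy a 0 with h | h | h
      · exact Or.inr ⟨ha, h⟩
      · exact absurd (h ▸ ha) h0
      · exact Or.inl ⟨ha, h⟩
    exact (Finset.card_le_card h1).trans (Finset.card_union_le _ _)
  have hA0 := Finset.card_pos.2 hA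
  by_cases hPQ : Q.card ≤ P.card
  · refine ⟨1, Or.inl rfl, P.image Int.natAbs, ?_, ?_, ?_⟩
    · refine Finset.Nonempty.image (Finset.card_pos.1 (by omega)) _
    · intro y hy
      obtain ⟨a, ha, rfl⟩ := Finset.mem_image.1 hy
      rw [hP, Finset.mem_filter] at ha
      refine ⟨Int.natAbs_pos.2 ha.2.ne', ?_⟩
      rw [one_mul, Int.natAbs_of_nonneg ha.2.le]
      exact ha.1
    · rw [Finset.card_image_of_injOn]
      · omega
      · intro a ha b hb hab
        rw [Finset.mem_coe, hP, Finset.mem_filter] at ha hb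
        have h1 : (a.natAbs : ℤ) = b.natAbs := by exact_mod_cast hab
        rwa [Int.natAbs_of_nonneg ha.2.le, Int.natAbs_of_nonneg hb.2.le] at h1
  · refine ⟨-1, Or.inr rfl, Q.image Int.natAbs, ?_, ?_, ?_⟩
    · refine Finset.Nonempty.image (Finset.card_pos.1 (by omega)) _
    · intro y hy
      obtain ⟨a, ha, rfl⟩ := Finset.mem_image.1 hy
      rw [hQ, Finset.mem_filter] at ha
      refine ⟨Int.natAbs_pos.2 ha.2.ne, ?_⟩
      have h1 : ((a.natAbs : ℕ) : ℤ) = -a := by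
        rw [Int.natCast_natAbs, abs_of_neg ha.2]
      rw [h1]
      simpa using ha.1
    · rw [Finset.card_image_of_injOn]
      · omega
      · intro a ha b hb hab
        rw [Finset.mem_coe, hQ, Finset.mem_filter] at ha hb
        have h1 : (a.natAbs : ℤ) = b.natAbs := by exact_mod_cast hab
        rw [Int.natCast_natAbs, Int.natCast_natAbs, abs_of_neg ha.2, abs_of_neg hb.2] at h1
        linarith

/-- Proposition T for one side of a set of integers -/
theorem coreZ (ε : ℝ) (hε : 0 < ε) (hε1 : ε ≤ 1) : ∃ m : ℕ, 2 ≤ m ∧ ∀ T : Finset ℤ,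
    m + (badZ T).card ≤ T.card → ∃ Q : ℕ, 0 < Q ∧ ∀ B : Finset ℤ, Q ≤ B.card →
      ∃ σ : ℤ, (σ = 1 ∨ σ = -1) ∧ ∃ U Y : Finset ℕ, U.Nonempty ∧ Y.Nonempty ∧
        (∀ y ∈ Y, 0 < y) ∧ B.card ≤ Q * Y.card ∧
        (∀ u ∈ U, ∃ t ∈ T, ∀ y ∈ Y, ∃ b ∈ B, b + t = σ * ((y : ℤ) + u)) ∧
        ∀ X : Finset ℕ, X.Nonempty → (∀ x ∈ X, 0 < x) → av U (fun t => dt t X Y) ≤
          ε * Real.log (X.card : ℝ) + ε * Real.log (Y.card : ℝ) := by
  obtain ⟨m, hm, hcore⟩ := core ε hε hε1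
  refine ⟨m, hm, ?_⟩
  intro T hT
  have h1 : m + (bad (tp T)).card ≤ (tp T).card := by
    have := Finset.card_le_card (bad_tp T)
    rw [card_tp]
    omega
  have h2 : m + (bad (tm T)).card ≤ (tm T).card := by
    have := Finset.card_le_card (bad_tm T)
    rw [card_tm]
    omega
  obtain ⟨Qp, hQp, hcp⟩ := hcore (tp T) h1
  obtain ⟨Qm, hQm, hcm⟩ := hcore (tm T) h2
  refine ⟨4 * (Qp + Qm) * (2 * bd T + 1), by positivity, ?_⟩
  intro B hB
  obtain ⟨σ, hσ, TN, Y, hTN, hYp, hBY, hmap⟩ := sides T B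
  have hD : 2 * (2 * bd T + 1) ≤ B.card := by
    refine le_trans ?_ hB
    exact Nat.mul_le_mul_right _ (by omega)
  have hB4 : B.card ≤ 4 * Y.card := by omega
  have hY : Y.Nonempty := Finset.card_pos.1 (by omega)
  have key : ∃ Q : ℕ, Q ≤ Qp + Qm ∧ ∃ T' ⊆ TN, T'.Nonempty ∧ ∃ Y' ⊆ Y, Y'.Nonempty ∧
        Y.card ≤ Q * Y'.card ∧ ∀ X : Finset ℕ, X.Nonempty → (∀ x ∈ X, 0 < x) →
          av T' (fun t => dt t X Y') ≤
            ε * Real.log (X.card : ℝ) + ε * Real.log (Y'.card : ℝ) := by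
    rcases hTN with h | h
    · exact ⟨Qp, by omega, h ▸ hcp Y hY hYp⟩
    · exact ⟨Qm, by omega, h ▸ hcm Y hY hYp⟩
  obtain ⟨Q, hQ, T', hT', hT'n, Y', hY', hY'n, hYY', hav⟩ := key
  refine ⟨σ, hσ, T', Y', hT'n, hY'n, fun y hy => hYp y (hY' hy), ?_, ?_, hav⟩
  · calc B.card ≤ 4 * Y.card := hB4
      _ ≤ 4 * (Q * Y'.card) := Nat.mul_le_mul_left _ hYY'
      _ = (4 * Q * 1) * Y'.card := by ring
      _ ≤ (4 * (Qp + Qm) * (2 * bd T + 1)) * Y'.card := by
          apply Nat.mul_le_mul_right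
          apply Nat.mul_le_mul
          · exact Nat.mul_le_mul_left _ hQ
          · omega
  · intro u hu
    obtain ⟨t, ht, h⟩ := hmap u (hT' hu)
    exact ⟨t, ht, fun y hy => h y (hY' hy)⟩

/-- Every set `B` has large product sets of translates: one step. -/
theorem oneStep (ε : ℝ) (hε : 0 < ε) : ∃ m : ℕ, 0 < m ∧ ∀ T : Finset ℤ,
    m + (badZ T).card ≤ T.card → ∃ c : ℝ, 0 < c ∧ ∀ X B : Finset ℤ, X.Nonempty → B.Nonempty →
      (0 : ℤ) ∉ X → ∃ t ∈ T, c * ((X.card : ℝ) * (B.card : ℝ)) ^ (1 - ε) ≤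
        ((Finset.image₂ (fun x b : ℤ => x * (b + t)) X B).card : ℝ) := by
  classical
  obtain ⟨ε', hε', hε'1, hε'ε⟩ : ∃ ε' : ℝ, 0 < ε' ∧ ε' ≤ 1 ∧ ε' ≤ ε :=
    ⟨min ε 1, by positivity, min_le_right _ _, min_le_left _ _⟩
  obtain ⟨m, hm, hcore⟩ := coreZ ε' hε' hε'1
  refine ⟨m, by omega, ?_⟩
  intro T hT
  obtain ⟨Q, hQ, hB⟩ := hcore T hT
  have hQr : (1 : ℝ) ≤ (Q : ℝ) := by exact_mod_cast hQ
  refine ⟨1 / (2 * Q), by positivity, ?_⟩
  intro X B hX hBn h0
  have hX1 : (1 : ℝ) ≤ (X.card : ℝ) := by exact_mod_cast Finset.card_pos.2 hX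
  have hB1 : (1 : ℝ) ≤ (B.card : ℝ) := by exact_mod_cast Finset.card_pos.2 hBn
  have hXB1 : (1 : ℝ) ≤ (X.card : ℝ) * (B.card : ℝ) := by nlinarith
  have hle : ((X.card : ℝ) * (B.card : ℝ)) ^ (1 - ε) ≤
      ((X.card : ℝ) * (B.card : ℝ)) ^ (1 - ε') :=
    Real.rpow_le_rpow_of_exponent_le hXB1 (by linarith)
  by_cases hQB : Q ≤ B.card
  · obtain ⟨σ, hσ, U, Y, hU, hY, hYp, hBY, hmap, hav⟩ := hB B hQB
    obtain ⟨σx, hσx, XN, hXN, hXNp, hXX⟩ := halfX X hX h0
    obtain ⟨u, hu, hdt⟩ := exists_le_av U hU _ _ (hav XN hXN (fun x hx => (hXNp x hx).1))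
    obtain ⟨t, ht, hbt⟩ := hmap u hu
    refine ⟨t, ht, ?_⟩
    have hXN1 : (1 : ℝ) ≤ (XN.card : ℝ) := by exact_mod_cast Finset.card_pos.2 hXN
    have hY1 : (1 : ℝ) ≤ (Y.card : ℝ) := by exact_mod_cast Finset.card_pos.2 hY
    have hsp : (sp u XN Y).Nonempty := by
      unfold sp
      exact Finset.Nonempty.image₂ hXN hY
    have hsp0 : (0 : ℝ) < ((sp u XN Y).card : ℝ) := by
      exact_mod_cast Finset.card_pos.2 hsp
    -- lower bound for `sp`
    have h1 : ((XN.card : ℝ) * (Y.card : ℝ)) ^ (1 - ε') ≤ ((sp u XN Y).card : ℝ) := by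
      rw [Real.rpow_def_of_pos (by positivity), ← Real.le_log_iff_exp_le hsp0,
        Real.log_mul (by positivity) (by positivity)]
      unfold dt at hdt
      nlinarith
    -- comparison of cardinalities
    have h2 : (X.card : ℝ) * (B.card : ℝ) ≤ 2 * Q * ((XN.card : ℝ) * (Y.card : ℝ)) := by
      have h3 : (X.card : ℝ) ≤ 2 * (XN.card : ℝ) := by exact_mod_cast hXX
      have h4 : (B.card : ℝ) ≤ Q * (Y.card : ℝ) := by exact_mod_cast hBY
      calc (X.card : ℝ) * (B.card : ℝ) ≤ (2 * (XN.card : ℝ)) * (Q * (Y.card : ℝ)) := by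
            apply mul_le_mul h3 h4 (by positivity) (by positivity)
        _ = 2 * Q * ((XN.card : ℝ) * (Y.card : ℝ)) := by ring
    have h5 : 1 / (2 * (Q : ℝ)) * ((X.card : ℝ) * (B.card : ℝ)) ^ (1 - ε') ≤
        ((XN.card : ℝ) * (Y.card : ℝ)) ^ (1 - ε') := by
      have h6 : ((X.card : ℝ) * (B.card : ℝ)) ^ (1 - ε') ≤
          (2 * Q * ((XN.card : ℝ) * (Y.card : ℝ))) ^ (1 - ε') :=
        Real.rpow_le_rpow (by positivity) h2 (by linarith)
      rw [Real.mul_rpow (x := 2 * (Q : ℝ)) (y := (XN.card : ℝ) * (Y.card : ℝ))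
        (by positivity) (by positivity)] at h6
      have h7 : (2 * (Q : ℝ)) ^ (1 - ε') ≤ 2 * (Q : ℝ) := by
        conv_rhs => rw [← Real.rpow_one (2 * (Q : ℝ))]
        exact Real.rpow_le_rpow_of_exponent_le (by linarith) (by linarith)
      have h8 : (0 : ℝ) ≤ ((XN.card : ℝ) * (Y.card : ℝ)) ^ (1 - ε') := by positivity
      rw [div_mul_eq_mul_div, one_mul, div_le_iff₀ (by positivity)]
      calc ((X.card : ℝ) * (B.card : ℝ)) ^ (1 - ε') ≤ _ := h6
        _ ≤ (2 * (Q : ℝ)) * ((XN.card : ℝ) * (Y.card : ℝ)) ^ (1 - ε') :=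
            mul_le_mul_of_nonneg_right h7 h8
        _ = _ := by ring
    -- the embedding
    have hss : (σx * σ = 1 ∨ σx * σ = -1) := by
      rcases hσx with rfl | rfl <;> rcases hσ with rfl | rfl <;> simp
    have h9 : (sp u XN Y).card ≤
        (Finset.image₂ (fun x b : ℤ => x * (b + t)) X B).card := by
      have h10 : ((sp u XN Y).image (fun z : ℕ => (σx * σ) * (z : ℤ))) ⊆
          Finset.image₂ (fun x b : ℤ => x * (b + t)) X B := by
        intro w hw
        obtain ⟨z, hz, rfl⟩ := Finset.mem_image.1 hw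
        unfold sp at hz
        obtain ⟨x, hx, y, hy, rfl⟩ := Finset.mem_image₂.1 hz
        obtain ⟨b, hb, hbt'⟩ := hbt y hy
        refine Finset.mem_image₂.2 ⟨σx * (x : ℤ), (hXNp x hx).2, b, hb, ?_⟩
        rw [hbt']
        push_cast
        ring
      refine le_trans (le_of_eq ?_) (Finset.card_le_card h10)
      rw [Finset.card_image_of_injective]
      intro a b hab
      simp only at hab
      rcases hss with h | h <;> rw [h] at hab
      · have : (a : ℤ) = b := by linarith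
        exact_mod_cast this
      · have : (a : ℤ) = b := by linarith
        exact_mod_cast this
    calc 1 / (2 * (Q : ℝ)) * ((X.card : ℝ) * (B.card : ℝ)) ^ (1 - ε)
        ≤ 1 / (2 * (Q : ℝ)) * ((X.card : ℝ) * (B.card : ℝ)) ^ (1 - ε') :=
          mul_le_mul_of_nonneg_left hle (by positivity)
      _ ≤ _ := h5
      _ ≤ _ := h1
      _ ≤ _ := by exact_mod_cast h9
  · -- few elements
    push Not at hQB
    obtain ⟨b, hb⟩ := hBn
    have hT2 : 1 < T.card := by omega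
    obtain ⟨t, ht, htb⟩ := Finset.exists_mem_ne hT2 (-b)
    refine ⟨t, ht, ?_⟩
    have hbt : b + t ≠ 0 := by
      intro h
      apply htb
      linarith
    have h1 : X.card ≤ (Finset.image₂ (fun x b : ℤ => x * (b + t)) X B).card := by
      have h2 : X.image (fun x => x * (b + t)) ⊆
          Finset.image₂ (fun x b : ℤ => x * (b + t)) X B := by
        intro w hw
        obtain ⟨x, hx, rfl⟩ := Finset.mem_image.1 hw
        exact Finset.mem_image₂.2 ⟨x, hx, b, hb, rfl⟩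
      refine le_trans (le_of_eq ?_) (Finset.card_le_card h2)
      rw [Finset.card_image_of_injective]
      intro a a' haa
      exact mul_right_cancel₀ hbt haa
    have h3 : ((X.card : ℝ) * (B.card : ℝ)) ^ (1 - ε') ≤ (X.card : ℝ) * (B.card : ℝ) := by
      conv_rhs => rw [← Real.rpow_one ((X.card : ℝ) * (B.card : ℝ))]
      exact Real.rpow_le_rpow_of_exponent_le hXB1 (by linarith)
    have h4 : (B.card : ℝ) ≤ (Q : ℝ) := by exact_mod_cast hQB.le
    have h5 : ((X.card : ℝ) * (B.card : ℝ)) ^ (1 - ε) ≤ (X.card : ℝ) * Q :=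
      (hle.trans h3).trans (mul_le_mul_of_nonneg_left h4 (by positivity))
    calc 1 / (2 * (Q : ℝ)) * ((X.card : ℝ) * (B.card : ℝ)) ^ (1 - ε)
        ≤ 1 / (2 * (Q : ℝ)) * ((X.card : ℝ) * Q) :=
          mul_le_mul_of_nonneg_left h5 (by positivity)
      _ = (X.card : ℝ) / 2 := by field_simp
      _ ≤ (X.card : ℝ) := by linarith
      _ ≤ _ := by exact_mod_cast h1

/-- `k`-fold product sets of sets that contain many translates of `T` -/
theorem kProducts (k : ℕ) (ε : ℝ) (hε : 0 < ε) : ∃ m : ℕ, 0 < m ∧ ∀ T : Finset ℤ,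
    m + (badZ T).card ≤ T.card → ∃ c : ℝ, 0 < c ∧ ∀ A B : Finset ℤ, A.Nonempty →
      (∀ b ∈ B, ∀ t ∈ T, b + t ∈ A) → (A.card : ℝ) ^ (1 - c) ≤ (B.card : ℝ) →
        c * (A.card : ℝ) ^ ((k : ℝ) - ε) ≤
          (((Fintype.piFinset (fun _ : Fin k => A)).image
            (fun f : Fin k → ℤ => ∏ i, f i)).card : ℝ) := by
  classical
  obtain ⟨ε', hε', hε'1, hε'ε⟩ : ∃ ε' : ℝ, 0 < ε' ∧ ε' ≤ 1 ∧
      (k : ℝ) * ((k : ℝ) + 1) * ε' ≤ ε / 2 := by
    refine ⟨min 1 (ε / (2 * ((k : ℝ) + 1) ^ 2)), by positivity, min_le_left _ _, ?_⟩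
    calc (k : ℝ) * ((k : ℝ) + 1) * min 1 (ε / (2 * ((k : ℝ) + 1) ^ 2))
        ≤ ((k : ℝ) + 1) ^ 2 * (ε / (2 * ((k : ℝ) + 1) ^ 2)) := by
          apply mul_le_mul _ (min_le_right _ _) (by positivity) (by positivity)
          nlinarith [(Nat.cast_nonneg k : (0 : ℝ) ≤ (k : ℝ))]
      _ = ε / 2 := by field_simp
  obtain ⟨m, hm, hcore⟩ := coreZ ε' hε' hε'1
  refine ⟨m, by omega, ?_⟩
  intro T hT
  obtain ⟨Q, hQ, hB⟩ := hcore T hT
  have hQr : (1 : ℝ) ≤ (Q : ℝ) := by exact_mod_cast hQ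
  have hk0 : (0 : ℝ) ≤ (k : ℝ) := Nat.cast_nonneg k
  obtain ⟨c, hc, hc2, hcε, hcQ⟩ : ∃ c : ℝ, 0 < c ∧ c ≤ 1 / 2 ∧ c * (k : ℝ) ≤ ε / 2 ∧
      c ≤ 1 / (Q : ℝ) ^ (2 * k) := by
    refine ⟨min (1 / 2) (min (ε / (2 * ((k : ℝ) + 1))) (1 / (Q : ℝ) ^ (2 * k))),
      by positivity, min_le_left _ _, ?_, (min_le_right _ _).trans (min_le_right _ _)⟩
    calc min (1 / 2) (min (ε / (2 * ((k : ℝ) + 1))) (1 / (Q : ℝ) ^ (2 * k))) * (k : ℝ)
        ≤ (ε / (2 * ((k : ℝ) + 1))) * ((k : ℝ) + 1) := by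
          apply mul_le_mul ((min_le_right _ _).trans (min_le_left _ _)) (by linarith) hk0
          positivity
      _ = ε / 2 := by field_simp
  refine ⟨c, hc, ?_⟩
  intro A B hA hBA hcard
  have hA1 : (1 : ℝ) ≤ (A.card : ℝ) := by exact_mod_cast Finset.card_pos.2 hA
  have hP1 : (1 : ℝ) ≤ (((Fintype.piFinset (fun _ : Fin k => A)).image
      (fun f : Fin k → ℤ => ∏ i, f i)).card : ℝ) := by
    have : ((Fintype.piFinset (fun _ : Fin k => A)).image
        (fun f : Fin k → ℤ => ∏ i, f i)).Nonempty := by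
      apply Finset.Nonempty.image
      rw [Fintype.piFinset_nonempty]
      exact fun _ => hA
    exact_mod_cast Finset.card_pos.2 this
  have hlogA : 0 ≤ Real.log (A.card : ℝ) := Real.log_natCast_nonneg _
  have hQ2k : (1 : ℝ) ≤ (Q : ℝ) ^ (2 * k) := one_le_pow₀ hQr
  by_cases hkε : (k : ℝ) - ε ≤ 0
  · calc c * (A.card : ℝ) ^ ((k : ℝ) - ε) ≤ (1 / 2) * 1 := by
          apply mul_le_mul hc2 _ (by positivity) (by norm_num)
          exact Real.rpow_le_one_of_one_le_of_nonpos hA1 hkε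
      _ ≤ 1 := by norm_num
      _ ≤ _ := hP1
  push Not at hkε
  by_cases hQB : Q ≤ B.card
  · obtain ⟨σ, hσ, U, Y, hU, hY, hYp, hBY, hmap, hav⟩ := hB B hQB
    obtain ⟨u, hu, hlow⟩ := kfold ε' hε'.le U hU Y hY hYp hav k
    -- the embedding
    have hemb : ((Fintype.piFinset (fun _ : Fin k => Y)).image
          (fun f : Fin k → ℕ => ∏ i, (f i + u i))).card ≤
        ((Fintype.piFinset (fun _ : Fin k => A)).image
          (fun f : Fin k → ℤ => ∏ i, f i)).card := by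
      have hσk : σ ^ k ≠ 0 := by
        apply pow_ne_zero
        rcases hσ with rfl | rfl <;> norm_num
      have h10 : (((Fintype.piFinset (fun _ : Fin k => Y)).image
          (fun f : Fin k → ℕ => ∏ i, (f i + u i))).image (fun z : ℕ => σ ^ k * (z : ℤ))) ⊆
          (Fintype.piFinset (fun _ : Fin k => A)).image (fun f : Fin k → ℤ => ∏ i, f i) := by
        intro w hw
        obtain ⟨z, hz, rfl⟩ := Finset.mem_image.1 hw
        obtain ⟨f, hf, rfl⟩ := Finset.mem_image.1 hz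
        rw [Fintype.mem_piFinset] at hf
        have h11 : ∀ i, ∃ a ∈ A, a = σ * ((f i : ℤ) + u i) := by
          intro i
          obtain ⟨t, ht, h⟩ := hmap (u i) (hu i)
          obtain ⟨b, hb, hb'⟩ := h (f i) (hf i)
          exact ⟨b + t, hBA b hb t ht, hb'⟩
        choose a ha haf using h11
        refine Finset.mem_image.2 ⟨a, Fintype.mem_piFinset.2 ha, ?_⟩
        rw [Finset.prod_congr rfl (fun i _ => haf i), Finset.prod_mul_distrib]
        simp
      have hinj : Function.Injective (fun z : ℕ => σ ^ k * (z : ℤ)) := by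
        intro a b hab
        have : (a : ℤ) = b := mul_left_cancel₀ hσk hab
        exact_mod_cast this
      exact (Finset.card_image_of_injective _ hinj).symm.le.trans (Finset.card_le_card h10)
    -- the inequality
    have hY1 : (1 : ℝ) ≤ (Y.card : ℝ) := by exact_mod_cast Finset.card_pos.2 hY
    have hlogY : 0 ≤ Real.log (Y.card : ℝ) := Real.log_natCast_nonneg _
    have hlogQ : 0 ≤ Real.log (Q : ℝ) := Real.log_natCast_nonneg _
    have hB0 : (0 : ℝ) < (B.card : ℝ) := by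
      exact_mod_cast lt_of_lt_of_le hQ hQB
    have h12 : (1 - c) * Real.log (A.card : ℝ) ≤ Real.log (B.card : ℝ) := by
      rw [← Real.log_rpow (by linarith)]
      exact Real.log_le_log (by positivity) hcard
    have h13 : Real.log (B.card : ℝ) ≤ Real.log (Q : ℝ) + Real.log (Y.card : ℝ) := by
      rw [← Real.log_mul (by positivity) (by positivity)]
      exact Real.log_le_log hB0 (by exact_mod_cast hBY)
    have h14 : ((k : ℝ) - ε / 2) * Real.log (Y.card : ℝ) ≤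
        Real.log ((((Fintype.piFinset (fun _ : Fin k => Y)).image
          (fun f : Fin k → ℕ => ∏ i, (f i + u i))).card : ℕ) : ℝ) := by
      refine le_trans ?_ hlow
      nlinarith
    have h15 : ((k : ℝ) - ε) * Real.log (A.card : ℝ) - (k : ℝ) * Real.log (Q : ℝ) ≤
        ((k : ℝ) - ε / 2) * Real.log (Y.card : ℝ) := by
      have h16 : (1 - c) * Real.log (A.card : ℝ) - Real.log (Q : ℝ) ≤
          Real.log (Y.card : ℝ) := by linarith
      have h17 : ((k : ℝ) - ε / 2) * ((1 - c) * Real.log (A.card : ℝ) - Real.log (Q : ℝ)) ≤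
          ((k : ℝ) - ε / 2) * Real.log (Y.card : ℝ) :=
        mul_le_mul_of_nonneg_left h16 (by linarith)
      have h18 : 0 ≤ ε / 2 * Real.log (Q : ℝ) := by positivity
      have h19 : ((k : ℝ) - ε / 2) * c * Real.log (A.card : ℝ) ≤
          ε / 2 * Real.log (A.card : ℝ) := by
        apply mul_le_mul_of_nonneg_right _ hlogA
        nlinarith
      nlinarith
    have hYk0 : (0 : ℝ) < ((((Fintype.piFinset (fun _ : Fin k => Y)).image
          (fun f : Fin k → ℕ => ∏ i, (f i + u i))).card : ℕ) : ℝ) := by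
      have : ((Fintype.piFinset (fun _ : Fin k => Y)).image
          (fun f : Fin k → ℕ => ∏ i, (f i + u i))).Nonempty := by
        apply Finset.Nonempty.image
        rw [Fintype.piFinset_nonempty]
        exact fun _ => hY
      exact_mod_cast Finset.card_pos.2 this
    have h20 : (A.card : ℝ) ^ ((k : ℝ) - ε) / (Q : ℝ) ^ k ≤
        ((((Fintype.piFinset (fun _ : Fin k => Y)).image
          (fun f : Fin k → ℕ => ∏ i, (f i + u i))).card : ℕ) : ℝ) := by
      have h21 : (0 : ℝ) < (A.card : ℝ) ^ ((k : ℝ) - ε) / (Q : ℝ) ^ k := by positivity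
      rw [← Real.log_le_log_iff h21 hYk0, Real.log_div (by positivity) (by positivity),
        Real.log_rpow (by linarith), Real.log_pow]
      linarith
    have h22 : c ≤ 1 / (Q : ℝ) ^ k := by
      refine hcQ.trans ?_
      apply one_div_le_one_div_of_le (by positivity)
      exact pow_le_pow_right₀ hQr (by omega)
    calc c * (A.card : ℝ) ^ ((k : ℝ) - ε) ≤ 1 / (Q : ℝ) ^ k * (A.card : ℝ) ^ ((k : ℝ) - ε) :=
          mul_le_mul_of_nonneg_right h22 (by positivity)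
      _ = (A.card : ℝ) ^ ((k : ℝ) - ε) / (Q : ℝ) ^ k := by ring
      _ ≤ _ := h20
      _ ≤ _ := by exact_mod_cast hemb
  · push Not at hQB
    have h1 : (A.card : ℝ) ≤ (Q : ℝ) ^ 2 := by
      have h2 : (A.card : ℝ) ^ (1 / 2 : ℝ) ≤ (Q : ℝ) := by
        calc (A.card : ℝ) ^ (1 / 2 : ℝ) ≤ (A.card : ℝ) ^ (1 - c) :=
              Real.rpow_le_rpow_of_exponent_le hA1 (by linarith)
          _ ≤ (B.card : ℝ) := hcard
          _ ≤ (Q : ℝ) := by exact_mod_cast hQB.le
      calc (A.card : ℝ) = ((A.card : ℝ) ^ (1 / 2 : ℝ)) ^ 2 := by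
            rw [← Real.rpow_natCast, ← Real.rpow_mul (by positivity)]
            norm_num
        _ ≤ (Q : ℝ) ^ 2 := pow_le_pow_left₀ (by positivity) h2 2
    have h3 : (A.card : ℝ) ^ ((k : ℝ) - ε) ≤ (Q : ℝ) ^ (2 * k) := by
      calc (A.card : ℝ) ^ ((k : ℝ) - ε) ≤ (A.card : ℝ) ^ (k : ℝ) :=
            Real.rpow_le_rpow_of_exponent_le hA1 (by linarith)
        _ = (A.card : ℝ) ^ k := Real.rpow_natCast _ _
        _ ≤ ((Q : ℝ) ^ 2) ^ k := pow_le_pow_left₀ (by positivity) h1 k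
        _ = (Q : ℝ) ^ (2 * k) := by rw [← pow_mul]
    calc c * (A.card : ℝ) ^ ((k : ℝ) - ε) ≤ 1 / (Q : ℝ) ^ (2 * k) * (Q : ℝ) ^ (2 * k) :=
          mul_le_mul hcQ h3 (by positivity) (by positivity)
      _ = 1 := by field_simp
      _ ≤ _ := hP1

end Pool.Agent.Helper23.BK
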