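import Pool.Agent.Helper23.BK.Tower

set_option autoImplicit false

/-! # Project BK, Markov: few nodes of a rare set have no atom -/

namespace Pool.Agent.Helper23.BK

open Finset Pool.Agent.Helper24.MD

open Classical in
/-- If `z`'s node at level `s` has no atom, then the elements of the node with another valuation
than `e` (from `Rare`) have frequency `> t0`; average and use `tower`. -/
theorem markov (κ t0 : ℝ) (ht0 : 0 < t0) (s : ℕ) (Z : Finset ℕ) (hZ : Z.Nonempty)
    (hR : Rare κ Z) :
    av Z (fun z => if Atom t0 s (cl (fz s) Z z) then (0 : ℝ) else 1) ≤ κ / t0 := by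
  obtain ⟨e, he⟩ := hR s
  obtain ⟨F, hFdef⟩ : ∃ F : ℕ → ℝ, F = fun z => if z.factorization s = e then (0 : ℝ) else 1 :=
    ⟨_, rfl⟩
  have hF0 : ∀ z, 0 ≤ F z := by
    intro z
    rw [hFdef]
    simp only
    split_ifs <;> norm_num
  have hcard : (0 : ℝ) < Z.card := by exact_mod_cast hZ.card_pos
  have hsum : ∀ A : Finset ℕ, ∑ x ∈ A, F x
      = (A.card : ℝ) - ((A.filter (fun z => z.factorization s = e)).card : ℝ) := by
    intro A
    have h1 : ∀ x ∈ A, F x = 1 - (if x.factorization s = e then (1 : ℝ) else 0) := by
      intro x _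
      rw [hFdef]
      simp only
      split_ifs <;> norm_num
    rw [Finset.sum_congr rfl h1, Finset.sum_sub_distrib, Finset.sum_boole]
    simp
  have hF : av Z F ≤ κ := by
    unfold av
    rw [div_le_iff₀ hcard, hsum]
    linarith
  have hT := tower (fz s) Z F
  have hpt : ∀ z ∈ Z, (if Atom t0 s (cl (fz s) Z z) then (0 : ℝ) else 1) ≤
      av (cl (fz s) Z z) F / t0 := by
    intro z hz
    have hzA : z ∈ cl (fz s) Z z := Finset.mem_filter.2 ⟨hz, rfl⟩
    generalize cl (fz s) Z z = A at hzA
    have hA : (0 : ℝ) < A.card := by exact_mod_cast Finset.card_pos.2 ⟨z, hzA⟩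
    by_cases hAt : Atom t0 s A
    · rw [if_pos hAt]
      unfold av
      have : 0 ≤ ∑ x ∈ A, F x := Finset.sum_nonneg (fun x _ => hF0 x)
      positivity
    · rw [if_neg hAt, le_div_iff₀ ht0, one_mul]
      unfold av
      rw [le_div_iff₀ hA, hsum]
      by_contra hlt
      push Not at hlt
      apply hAt
      rcases (A.filter (fun z => z.factorization s = e)).eq_empty_or_nonempty with h0 | ⟨a, ha⟩
      · refine ⟨z, hzA, ?_⟩
        rw [h0] at hlt
        simp only [Finset.card_empty, Nat.cast_zero, sub_zero] at hlt
        have h3 : (0 : ℝ) ≤ ((cl (fun n : ℕ => n.factorization s) A z).card : ℝ) :=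
          Nat.cast_nonneg _
        linarith
      · have ha' := Finset.mem_filter.1 ha
        refine ⟨a, ha'.1, ?_⟩
        have h4 : cl (fun n : ℕ => n.factorization s) A a
            = A.filter (fun z => z.factorization s = e) := by
          unfold cl
          refine Finset.filter_congr (fun y _ => ?_)
          show y.factorization s = a.factorization s ↔ y.factorization s = e
          rw [ha'.2]
        rw [h4]
        linarith
  calc av Z (fun z => if Atom t0 s (cl (fz s) Z z) then (0 : ℝ) else 1)
      ≤ av Z (fun z => av (cl (fz s) Z z) F / t0) := by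
        unfold av
        exact div_le_div_of_nonneg_right (Finset.sum_le_sum hpt) hcard.le
    _ = av Z (fun z => av (cl (fz s) Z z) F) / t0 := by
        unfold av
        rw [← Finset.sum_div]
        ring
    _ = av Z F / t0 := by rw [hT]
    _ ≤ κ / t0 := div_le_div_of_nonneg_right hF ht0.le

end Pool.Agent.Helper23.BK
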