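import Pool.Agent.Helper23.BK.Node
import Pool.Agent.Helper23.BK.Markov

set_option autoImplicit false

/-! # Project BK, Level and the product theorem for rare sets -/

namespace Pool.Agent.Helper23.BK

open Finset Pool.Agent.Helper24.MD

/-- the average of `log |X' Z'|` over the nodes of level `s` -/
noncomputable def EL (s : ℕ) (X Z : Finset ℕ) : ℝ :=
  av X (fun x => av Z (fun z => Real.log ((Finset.image₂ (fun a b : ℕ => a * b)
    (cl (fz s) X x) (cl (fz s) Z z)).card : ℝ)))

/-- average of a combination -/
theorem level_av (η : ℝ) (X Z : Finset ℕ) (hX : X.Nonempty) (hZ : Z.Nonempty) (a b c : ℕ → ℝ)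
    (G : ℕ → ℕ → ℝ) :
    av X (fun x => av Z (fun z => (1 - η) * (a x + b z) - a x * c z + G x z)) =
      (1 - η) * (av X a + av Z b) - av Z c * av X a + av X (fun x => av Z (fun z => G x z)) := by
  have h1 : ∀ x, av Z (fun z => (1 - η) * (a x + b z) - a x * c z + G x z) =
      ((1 - η) - av Z c) * a x + ((1 - η) * av Z b + av Z (fun z => G x z)) := by
    intro x
    have h2 : (fun z => (1 - η) * (a x + b z) - a x * c z + G x z) =
        fun z => ((1 - η) * a x + ((1 - η) * b z + (-a x) * c z)) + G x z := by
      funext z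
      ring
    rw [h2, av_add, av_add, av_add, av_const Z hZ, av_mul, av_mul]
    ring
  have h3 : av X (fun x => av Z (fun z => (1 - η) * (a x + b z) - a x * c z + G x z)) =
      av X (fun x => ((1 - η) - av Z c) * a x + ((1 - η) * av Z b + av Z (fun z => G x z))) := by
    congr 1
    funext x
    exact h1 x
  rw [h3, av_add, av_add, av_mul, av_const X hX]
  ring

open Classical in
/-- one level: `node` for the pair of nodes of `x` and `z`, averaged over `x ∈ X`, `z ∈ Z`
(`tower` twice, `av_comm`, `cl_step`; the average of a product of a function of `x` and a function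
of `z` is the product of the averages). -/
theorem EL_step (η t0 : ℝ)
    (hnode : ∀ (s : ℕ) (X Z : Finset ℕ), X.Nonempty → Z.Nonempty → (∀ x ∈ X, 0 < x) →
      (∀ z ∈ Z, 0 < z) →
      (1 - η) * (hh (fun n : ℕ => n.factorization s) X + hh (fun n : ℕ => n.factorization s) Z) -
        (if Atom t0 s Z then 0 else hh (fun n : ℕ => n.factorization s) X) +
        av X (fun x => av Z (fun z => Real.log ((Finset.image₂ (fun a b : ℕ => a * b)
          (cl (fun n : ℕ => n.factorization s) X x)
          (cl (fun n : ℕ => n.factorization s) Z z)).card : ℝ))) ≤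
        Real.log ((Finset.image₂ (fun a b : ℕ => a * b) X Z).card : ℝ))
    (s : ℕ) (X Z : Finset ℕ) (hX : X.Nonempty) (hZ : Z.Nonempty) (hXp : ∀ x ∈ X, 0 < x)
    (hZp : ∀ z ∈ Z, 0 < z) :
    EL (s + 1) X Z +
      (1 - η) * (av X (fun x => hh (fun n : ℕ => n.factorization s) (cl (fz s) X x)) +
        av Z (fun z => hh (fun n : ℕ => n.factorization s) (cl (fz s) Z z))) -
      av Z (fun z => if Atom t0 s (cl (fz s) Z z) then (0 : ℝ) else 1) *
        av X (fun x => hh (fun n : ℕ => n.factorization s) (cl (fz s) X x)) ≤ EL s X Z := by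
  have hcongr : ∀ {α : Type} (S : Finset α) (F F' : α → ℝ), (∀ x ∈ S, F x = F' x) →
      av S F = av S F' := by
    intro α S F F' h
    unfold av
    rw [Finset.sum_congr rfl h]
  -- the node inequality
  have h1 : ∀ x ∈ X, ∀ z ∈ Z,
      (1 - η) * (hh (fun n : ℕ => n.factorization s) (cl (fz s) X x) +
          hh (fun n : ℕ => n.factorization s) (cl (fz s) Z z)) -
        hh (fun n : ℕ => n.factorization s) (cl (fz s) X x) *
          (if Atom t0 s (cl (fz s) Z z) then (0 : ℝ) else 1) +
        av (cl (fz s) X x) (fun x' => av (cl (fz s) Z z) (fun z' =>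
          Real.log ((Finset.image₂ (fun a b : ℕ => a * b)
            (cl (fz (s + 1)) X x') (cl (fz (s + 1)) Z z')).card : ℝ))) ≤
        Real.log ((Finset.image₂ (fun a b : ℕ => a * b)
          (cl (fz s) X x) (cl (fz s) Z z)).card : ℝ) := by
    intro x hx z hz
    have h2 := hnode s (cl (fz s) X x) (cl (fz s) Z z) ⟨x, mem_cl_self _ _ _ hx⟩
      ⟨z, mem_cl_self _ _ _ hz⟩ (fun y hy => hXp y (Finset.mem_filter.1 hy).1)
      (fun y hy => hZp y (Finset.mem_filter.1 hy).1)
    have h3 : av (cl (fz s) X x) (fun x' => av (cl (fz s) Z z) (fun z' =>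
        Real.log ((Finset.image₂ (fun a b : ℕ => a * b)
          (cl (fun n : ℕ => n.factorization s) (cl (fz s) X x) x')
          (cl (fun n : ℕ => n.factorization s) (cl (fz s) Z z) z')).card : ℝ))) =
        av (cl (fz s) X x) (fun x' => av (cl (fz s) Z z) (fun z' =>
          Real.log ((Finset.image₂ (fun a b : ℕ => a * b)
            (cl (fz (s + 1)) X x') (cl (fz (s + 1)) Z z')).card : ℝ))) := by
      refine hcongr _ _ _ fun x' hx' => hcongr _ _ _ fun z' hz' => ?_
      rw [cl_step s X x x' hx', cl_step s Z z z' hz']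
    rw [h3] at h2
    have h4 : hh (fun n : ℕ => n.factorization s) (cl (fz s) X x) *
        (if Atom t0 s (cl (fz s) Z z) then (0 : ℝ) else 1) =
        if Atom t0 s (cl (fz s) Z z) then 0 else
          hh (fun n : ℕ => n.factorization s) (cl (fz s) X x) := by
      split_ifs
      · rw [mul_zero]
      · rw [mul_one]
    rw [h4]
    exact h2
  -- average
  have h5 : av X (fun x => av Z (fun z =>
      (1 - η) * (hh (fun n : ℕ => n.factorization s) (cl (fz s) X x) +
          hh (fun n : ℕ => n.factorization s) (cl (fz s) Z z)) -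
        hh (fun n : ℕ => n.factorization s) (cl (fz s) X x) *
          (if Atom t0 s (cl (fz s) Z z) then (0 : ℝ) else 1) +
        av (cl (fz s) X x) (fun x' => av (cl (fz s) Z z) (fun z' =>
          Real.log ((Finset.image₂ (fun a b : ℕ => a * b)
            (cl (fz (s + 1)) X x') (cl (fz (s + 1)) Z z')).card : ℝ))))) ≤ EL s X Z := by
    unfold EL
    exact av_mono _ _ _ fun x hx => av_mono _ _ _ fun z hz => h1 x hx z hz
  have hsub : ∀ {α : Type} (S : Finset α) (F F' : α → ℝ),
      av S (fun x => F x - F' x) = av S F - av S F' := by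
    intro α S F F'
    unfold av
    rw [Finset.sum_sub_distrib, sub_div]
  have h6 : av X (fun x => av Z (fun z => av (cl (fz s) X x) (fun x' =>
      av (cl (fz s) Z z) (fun z' => Real.log ((Finset.image₂ (fun a b : ℕ => a * b)
            (cl (fz (s + 1)) X x') (cl (fz (s + 1)) Z z')).card : ℝ))))) = EL (s + 1) X Z := by
    have h7 : ∀ x, av Z (fun z => av (cl (fz s) X x) (fun x' =>
        av (cl (fz s) Z z) (fun z' => Real.log ((Finset.image₂ (fun a b : ℕ => a * b)
            (cl (fz (s + 1)) X x') (cl (fz (s + 1)) Z z')).card : ℝ)))) =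
        av (cl (fz s) X x) (fun x' => av Z (fun z' =>
          Real.log ((Finset.image₂ (fun a b : ℕ => a * b)
            (cl (fz (s + 1)) X x') (cl (fz (s + 1)) Z z')).card : ℝ))) := by
      intro x
      rw [av_comm]
      refine hcongr _ _ _ fun x' _ => ?_
      exact tower (fz s) Z _
    rw [hcongr X _ _ fun x _ => h7 x]
    exact tower (fz s) X _
  have h8 : av X (fun x => av Z (fun z =>
      (1 - η) * (hh (fun n : ℕ => n.factorization s) (cl (fz s) X x) +
          hh (fun n : ℕ => n.factorization s) (cl (fz s) Z z)) -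
        hh (fun n : ℕ => n.factorization s) (cl (fz s) X x) *
          (if Atom t0 s (cl (fz s) Z z) then (0 : ℝ) else 1) +
        av (cl (fz s) X x) (fun x' => av (cl (fz s) Z z) (fun z' =>
          Real.log ((Finset.image₂ (fun a b : ℕ => a * b)
            (cl (fz (s + 1)) X x') (cl (fz (s + 1)) Z z')).card : ℝ))))) =
      (1 - η) * (av X (fun x => hh (fun n : ℕ => n.factorization s) (cl (fz s) X x)) +
        av Z (fun z => hh (fun n : ℕ => n.factorization s) (cl (fz s) Z z))) -
      av Z (fun z => if Atom t0 s (cl (fz s) Z z) then (0 : ℝ) else 1) *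
        av X (fun x => hh (fun n : ℕ => n.factorization s) (cl (fz s) X x)) +
      EL (s + 1) X Z := by
    rw [← h6]
    exact level_av η X Z hX hZ _ _ _ _
  rw [h8] at h5
  linarith

end Pool.Agent.Helper23.BK
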