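import Pool.Agent.Helper23.BK.Final

set_option autoImplicit false

/-! # Project BK, Main: blocks of consecutive integers -/

namespace Pool.Agent.Helper23.BK

open Finset Pool.Agent.Helper24.MD

/-- at most half of the numbers up to `M` are primes dividing a difference -/
theorem card_badZ_Icc (M : ℕ) : 2 * (badZ (Finset.Icc (0 : ℤ) M)).card ≤ M + 1 := by
  have h1 : badZ (Finset.Icc (0 : ℤ) M) ⊆
      insert 2 ((Finset.range ((M - 1) / 2)).image (fun i => 2 * i + 3)) := by
    intro p hp
    unfold badZ at hp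
    rw [Finset.mem_biUnion] at hp
    obtain ⟨⟨a, b⟩, hab, hp⟩ := hp
    rw [Finset.mem_product, Finset.mem_Icc, Finset.mem_Icc] at hab
    simp only at hab hp
    rw [Nat.mem_primeFactors] at hp
    have h2 : p ≤ (a - b).natAbs := Nat.le_of_dvd (by omega) hp.2.1
    have h3 : p ≤ M := by omega
    rw [Finset.mem_insert]
    rcases hp.1.eq_two_or_odd with h | h
    · exact Or.inl h
    · right
      have h4 := hp.1.two_le
      have h5 : p ≠ 1 := hp.1.one_lt.ne'
      rw [Finset.mem_image]
      refine ⟨(p - 3) / 2, ?_, ?_⟩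
      · rw [Finset.mem_range]
        omega
      · omega
  by_cases hM : M < 2
  · have h2 : badZ (Finset.Icc (0 : ℤ) M) = ∅ := by
      rw [Finset.eq_empty_iff_forall_notMem]
      intro p hp
      unfold badZ at hp
      rw [Finset.mem_biUnion] at hp
      obtain ⟨⟨a, b⟩, hab, hp⟩ := hp
      rw [Finset.mem_product, Finset.mem_Icc, Finset.mem_Icc] at hab
      simp only at hab hp
      rw [Nat.mem_primeFactors] at hp
      have h2 : p ≤ (a - b).natAbs := Nat.le_of_dvd (by omega) hp.2.1
      have h4 := hp.1.two_le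
      omega
    rw [h2]
    simp
  · have h2 := Finset.card_le_card h1
    have h3 := Finset.card_insert_le 2 ((Finset.range ((M - 1) / 2)).image (fun i => 2 * i + 3))
    have h4 := Finset.card_image_le (s := Finset.range ((M - 1) / 2)) (f := fun i => 2 * i + 3)
    rw [Finset.card_range] at h4
    omega

/-- `k`-fold product sets of sets with many blocks of `M + 1` consecutive integers -/
theorem blocks (k : ℕ) (ε : ℝ) (hε : 0 < ε) : ∃ M0 : ℕ, ∀ M : ℕ, M0 ≤ M →
    ∃ c : ℝ, 0 < c ∧ ∀ A : Finset ℤ, A.Nonempty →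
      (A.card : ℝ) ^ (1 - c) ≤
        ((A.filter (fun b => ∀ i ∈ Finset.Icc (0 : ℤ) M, b + i ∈ A)).card : ℝ) →
        c * (A.card : ℝ) ^ ((k : ℝ) - ε) ≤
          (((Fintype.piFinset (fun _ : Fin k => A)).image
            (fun f : Fin k → ℤ => ∏ i, f i)).card : ℝ) := by
  classical
  obtain ⟨m, hm, h⟩ := kProducts k ε hε
  refine ⟨2 * m, ?_⟩
  intro M hM
  have h1 := card_badZ_Icc M
  have h2 : (Finset.Icc (0 : ℤ) M).card = M + 1 := by
    rw [Int.card_Icc]
    omega
  obtain ⟨c, hc, h3⟩ := h (Finset.Icc (0 : ℤ) M) (by omega)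
  refine ⟨c, hc, ?_⟩
  intro A hA hcard
  refine h3 A _ hA ?_ hcard
  intro b hb t ht
  exact (Finset.mem_filter.1 hb).2 t ht

end Pool.Agent.Helper23.BK
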