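import Pool.Agent.Helper23.BK.Main

set_option autoImplicit false

/-! # Project BK, Near: sets that are nearly invariant under translation by `1` -/

namespace Pool.Agent.Helper23.BK

open Finset

/-- most elements of a nearly invariant set start a block -/
theorem good_card (A : Finset ℤ) (M : ℕ) :
    A.card ≤ (A.filter (fun b => ∀ i ∈ Finset.Icc (0 : ℤ) M, b + i ∈ A)).card +
      M * (A.filter (fun a => a + 1 ∉ A)).card := by
  classical
  have h1 : A ⊆ A.filter (fun b => ∀ i ∈ Finset.Icc (0 : ℤ) M, b + i ∈ A) ∪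
      ((Finset.range M).biUnion (fun j =>
        (A.filter (fun a => a + 1 ∉ A)).image (fun a => a - (j : ℤ)))) := by
    intro a ha
    rw [Finset.mem_union]
    by_cases h : ∀ i ∈ Finset.Icc (0 : ℤ) M, a + i ∈ A
    · exact Or.inl (Finset.mem_filter.2 ⟨ha, h⟩)
    · right
      have hex : ∃ n : ℕ, a + (n : ℤ) ∉ A := by
        push Not at h
        obtain ⟨i, hi, hia⟩ := h
        rw [Finset.mem_Icc] at hi
        refine ⟨i.toNat, ?_⟩
        rw [Int.toNat_of_nonneg hi.1]
        exact hia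
      have hn := Nat.find_spec hex
      have hmin : ∀ m : ℕ, m < Nat.find hex → a + (m : ℤ) ∈ A := fun m hm => by
        by_contra hc
        exact Nat.find_min hex hm hc
      have hpos : 0 < Nat.find hex := by
        rcases Nat.eq_zero_or_pos (Nat.find hex) with h0 | h0
        · rw [h0] at hn
          exact absurd ha (by simpa using hn)
        · exact h0
      have hle : Nat.find hex ≤ M := by
        push Not at h
        obtain ⟨i, hi, hia⟩ := h
        rw [Finset.mem_Icc] at hi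
        have : Nat.find hex ≤ i.toNat := by
          apply Nat.find_min'
          rw [Int.toNat_of_nonneg hi.1]
          exact hia
        omega
      rw [Finset.mem_biUnion]
      refine ⟨Nat.find hex - 1, Finset.mem_range.2 (by omega), ?_⟩
      rw [Finset.mem_image]
      refine ⟨a + ((Nat.find hex - 1 : ℕ) : ℤ), Finset.mem_filter.2 ⟨hmin _ (by omega), ?_⟩,
        by ring⟩
      have h2 : a + ((Nat.find hex - 1 : ℕ) : ℤ) + 1 = a + (Nat.find hex : ℤ) := by
        push_cast [Nat.cast_sub hpos]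
        ring
      rw [h2]
      exact hn
  refine (Finset.card_le_card h1).trans ((Finset.card_union_le _ _).trans ?_)
  apply Nat.add_le_add_left
  refine (Finset.card_biUnion_le_card_mul _ _ (A.filter (fun a => a + 1 ∉ A)).card ?_).trans ?_
  · intro j _
    exact Finset.card_image_le
  · rw [Finset.card_range]

/-- **Nearly invariant sets.** -/
theorem nearInv (k : ℕ) (ε : ℝ) (hε : 0 < ε) : ∃ δ c : ℝ, 0 < δ ∧ 0 < c ∧
    ∀ A : Finset ℤ, A.Nonempty →
      ((A.filter (fun a => a + 1 ∉ A)).card : ℝ) ≤ δ * (A.card : ℝ) →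
        c * (A.card : ℝ) ^ ((k : ℝ) - ε) ≤
          (((Fintype.piFinset (fun _ : Fin k => A)).image
            (fun f : Fin k → ℤ => ∏ i, f i)).card : ℝ) := by
  classical
  obtain ⟨M0, h⟩ := blocks k ε hε
  obtain ⟨c, hc, hA⟩ := h (M0 + 1) (by omega)
  have hM : (0 : ℝ) < ((M0 + 1 : ℕ) : ℝ) := by positivity
  refine ⟨1 / (2 * ((M0 + 1 : ℕ) : ℝ)), min c (1 / (2 : ℝ) ^ ((k : ℝ) / c)), by positivity,
    by positivity, ?_⟩
  intro A hAn hδ
  have hA1 : (1 : ℝ) ≤ (A.card : ℝ) := by exact_mod_cast Finset.card_pos.2 hAn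
  have hP1 : (1 : ℝ) ≤ (((Fintype.piFinset (fun _ : Fin k => A)).image
      (fun f : Fin k → ℤ => ∏ i, f i)).card : ℝ) := by
    have : ((Fintype.piFinset (fun _ : Fin k => A)).image
        (fun f : Fin k → ℤ => ∏ i, f i)).Nonempty := by
      apply Finset.Nonempty.image
      rw [Fintype.piFinset_nonempty]
      exact fun _ => hAn
    exact_mod_cast Finset.card_pos.2 this
  have hgood : (A.card : ℝ) / 2 ≤
      ((A.filter (fun b => ∀ i ∈ Finset.Icc (0 : ℤ) ((M0 + 1 : ℕ) : ℤ), b + i ∈ A)).card : ℝ) := by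
    have h1 := good_card A (M0 + 1)
    have h2 : (A.card : ℝ) ≤
        ((A.filter (fun b => ∀ i ∈ Finset.Icc (0 : ℤ) ((M0 + 1 : ℕ) : ℤ), b + i ∈ A)).card : ℝ) +
          ((M0 + 1 : ℕ) : ℝ) * ((A.filter (fun a => a + 1 ∉ A)).card : ℝ) := by
      exact_mod_cast h1
    have h3 : ((M0 + 1 : ℕ) : ℝ) * ((A.filter (fun a => a + 1 ∉ A)).card : ℝ) ≤
        (A.card : ℝ) / 2 := by
      calc ((M0 + 1 : ℕ) : ℝ) * ((A.filter (fun a => a + 1 ∉ A)).card : ℝ)
          ≤ ((M0 + 1 : ℕ) : ℝ) * (1 / (2 * ((M0 + 1 : ℕ) : ℝ)) * (A.card : ℝ)) :=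
            mul_le_mul_of_nonneg_left hδ hM.le
        _ = (A.card : ℝ) / 2 := by field_simp
    linarith
  by_cases hbig : (2 : ℝ) ≤ (A.card : ℝ) ^ c
  · have h1 : (A.card : ℝ) ^ (1 - c) ≤ (A.card : ℝ) / 2 := by
      rw [Real.rpow_sub (by linarith), Real.rpow_one]
      exact div_le_div_of_nonneg_left (by linarith) (by norm_num) hbig
    refine le_trans ?_ (hA A hAn (h1.trans hgood))
    exact mul_le_mul_of_nonneg_right (min_le_left _ _) (by positivity)
  · push Not at hbig
    have h1 : (A.card : ℝ) ≤ (2 : ℝ) ^ (1 / c) := by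
      calc (A.card : ℝ) = ((A.card : ℝ) ^ c) ^ (1 / c) := by
            rw [← Real.rpow_mul (by linarith)]
            rw [mul_one_div_cancel hc.ne', Real.rpow_one]
        _ ≤ (2 : ℝ) ^ (1 / c) := Real.rpow_le_rpow (by positivity) hbig.le (by positivity)
    have h2 : (A.card : ℝ) ^ ((k : ℝ) - ε) ≤ (2 : ℝ) ^ ((k : ℝ) / c) := by
      calc (A.card : ℝ) ^ ((k : ℝ) - ε) ≤ (A.card : ℝ) ^ (k : ℝ) :=
            Real.rpow_le_rpow_of_exponent_le hA1 (by linarith)
        _ ≤ ((2 : ℝ) ^ (1 / c)) ^ (k : ℝ) := Real.rpow_le_rpow (by positivity) h1 (by positivity)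
        _ = (2 : ℝ) ^ ((k : ℝ) / c) := by
            rw [← Real.rpow_mul (by norm_num)]
            congr 1
            ring
    calc min c (1 / (2 : ℝ) ^ ((k : ℝ) / c)) * (A.card : ℝ) ^ ((k : ℝ) - ε)
        ≤ 1 / (2 : ℝ) ^ ((k : ℝ) / c) * (2 : ℝ) ^ ((k : ℝ) / c) :=
          mul_le_mul (min_le_right _ _) h2 (by positivity) (by positivity)
      _ = 1 := by
          rw [one_div, inv_mul_cancel₀]
          positivity
      _ ≤ _ := hP1

end Pool.Agent.Helper23.BK
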