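import Pool.Agent.Helper23.BK.Defs
import Pool.Agent.Helper24.MD.Prod

set_option autoImplicit false

/-! # Project BK, Node: the product inequality at one prime -/

namespace Pool.Agent.Helper23.BK

open Finset Pool.Agent.Helper24.MD

open Classical in
/-- `prod_node` if `Z` has an atom; otherwise (`prod_any` with the roles exchanged, or
`step_right` of `Helper24/MD/Pairs.lean`) the valuation of `z` is seen once that of `x` is known. -/
theorem node (η : ℝ) (hη : 0 < η) (hη1 : η ≤ 1) : ∃ t0 : ℝ, 0 < t0 ∧ t0 ≤ 1 / 2 ∧
    ∀ (s : ℕ) (X Z : Finset ℕ), X.Nonempty → Z.Nonempty → (∀ x ∈ X, 0 < x) →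
      (∀ z ∈ Z, 0 < z) →
      (1 - η) * (hh (fun n : ℕ => n.factorization s) X + hh (fun n : ℕ => n.factorization s) Z) -
        (if Atom t0 s Z then 0 else hh (fun n : ℕ => n.factorization s) X) +
        av X (fun x => av Z (fun z => Real.log ((Finset.image₂ (fun a b : ℕ => a * b)
          (cl (fun n : ℕ => n.factorization s) X x)
          (cl (fun n : ℕ => n.factorization s) Z z)).card : ℝ))) ≤
        Real.log ((Finset.image₂ (fun a b : ℕ => a * b) X Z).card : ℝ) := by
  obtain ⟨t0, h1, h2, h3⟩ := prod_node η hη hη1
  refine ⟨t0, h1, h2, ?_⟩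
  intro s X Z hX hZ hX0 hZ0
  by_cases hat : Atom t0 s Z
  · rw [if_pos hat, sub_zero]
    exact h3 s X Z hX hZ hX0 hZ0 hat
  · rw [if_neg hat]
    have h4 := step_right (fun a b : ℕ => a * b) (fun n : ℕ => n.factorization s)
      (fun n : ℕ => n.factorization s) X Z hX hZ (by
        intro x hx x' hx' y hy y' hy' h5 h6
        have h7 : (x * y).factorization s = (x' * y').factorization s :=
          congrArg (fun n : ℕ => n.factorization s) h6
        have h8 : x.factorization s = x'.factorization s := h5
        rw [Nat.factorization_mul (hX0 x hx).ne' (hZ0 y hy).ne',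
          Nat.factorization_mul (hX0 x' hx').ne' (hZ0 y' hy').ne', Finsupp.add_apply,
          Finsupp.add_apply, h8] at h7
        exact Nat.add_left_cancel h7)
    have h9 := hh_nonneg (fun n : ℕ => n.factorization s) X hX
    have h10 := hh_nonneg (fun n : ℕ => n.factorization s) Z hZ
    have h11 : 0 ≤ η * (hh (fun n : ℕ => n.factorization s) X +
        hh (fun n : ℕ => n.factorization s) Z) := mul_nonneg hη.le (add_nonneg h9 h10)
    linarith

end Pool.Agent.Helper23.BK
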