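import Pool.Agent.Helper23.BK.Defs

set_option autoImplicit false

/-! # Project BK, Thresh: the threshold of a valuation without atom -/

namespace Pool.Agent.Helper23.BK

open Finset Pool.Agent.Helper24.MD

/-- `j` minimal with `#{v ≤ j} ≥ (κ / 2) |Y|`, where `v = v_p (y + t0)`; then `#{v > j} ≤
(1 - κ/2) |Y|`, and `#{v ≤ j} = #{v < j} + #{v = j} < (κ/2 + 1 - κ) |Y|`. -/
theorem thresh (κ : ℝ) (hκ : 0 < κ) (hκ1 : κ ≤ 1 / 2) (p t0 : ℕ) (hp : p.Prime)
    (Y : Finset ℕ) (hY : Y.Nonempty) (hpos : ∀ y ∈ Y, 0 < y)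
    (h : ∀ e : ℕ, ((Y.filter (fun y => (y + t0).factorization p = e)).card : ℝ) <
      (1 - κ) * (Y.card : ℝ)) :
    ∃ j : ℕ, κ / 2 * (Y.card : ℝ) ≤ ((Y.filter (fun y => p ^ (j + 1) ∣ y + t0)).card : ℝ) ∧
      ((Y.filter (fun y => p ^ (j + 1) ∣ y + t0)).card : ℝ) ≤ (1 - κ / 2) * (Y.card : ℝ) := by
  classical
  have hYc : (0 : ℝ) < (Y.card : ℝ) := by
    exact_mod_cast hY.card_pos
  set v : ℕ → ℕ := fun y => (y + t0).factorization p with hv
  -- complement
  have hcompl : ∀ j : ℕ, ((Y.filter (fun y => p ^ (j + 1) ∣ y + t0)).card : ℝ) =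
      (Y.card : ℝ) - ((Y.filter (fun y => v y ≤ j)).card : ℝ) := by
    intro j
    have h1 : Y.filter (fun y => p ^ (j + 1) ∣ y + t0) = Y.filter (fun y => ¬ v y ≤ j) := by
      apply Finset.filter_congr
      intro y hy
      have hne : y + t0 ≠ 0 := by have := hpos y hy; omega
      rw [hp.pow_dvd_iff_le_factorization hne]
      simp only [hv]
      omega
    have h2 := Finset.card_filter_add_card_filter_not (s := Y) (fun y => v y ≤ j)
    rw [h1]
    have h3 : ((Y.filter (fun y => v y ≤ j)).card : ℝ) +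
        ((Y.filter (fun y => ¬ v y ≤ j)).card : ℝ) = (Y.card : ℝ) := by
      exact_mod_cast h2
    linarith
  have hex : ∃ j : ℕ, κ / 2 * (Y.card : ℝ) ≤ ((Y.filter (fun y => v y ≤ j)).card : ℝ) := by
    refine ⟨Y.sup v, ?_⟩
    have h1 : Y.filter (fun y => v y ≤ Y.sup v) = Y := by
      apply Finset.filter_true_of_mem
      intro y hy
      exact Finset.le_sup (f := v) hy
    rw [h1]
    nlinarith
  obtain ⟨hj1, hj2⟩ : κ / 2 * (Y.card : ℝ) ≤
      ((Y.filter (fun y => v y ≤ Nat.find hex)).card : ℝ) ∧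
      ∀ i < Nat.find hex, ¬ κ / 2 * (Y.card : ℝ) ≤ ((Y.filter (fun y => v y ≤ i)).card : ℝ) :=
    ⟨Nat.find_spec hex, fun i hi => Nat.find_min hex hi⟩
  generalize Nat.find hex = j at hj1 hj2
  refine ⟨j, ?_, ?_⟩
  · rw [hcompl j]
    have hlt : ((Y.filter (fun y => v y < j)).card : ℝ) ≤ κ / 2 * (Y.card : ℝ) := by
      rcases Nat.eq_zero_or_pos j with h0 | h0
      · subst h0
        simp only [Nat.not_lt_zero, Finset.filter_false, Finset.card_empty, Nat.cast_zero]
        positivity
      · have h1 := hj2 (j - 1) (by omega)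
        have h2 : Y.filter (fun y => v y < j) = Y.filter (fun y => v y ≤ j - 1) := by
          apply Finset.filter_congr
          intro y _
          omega
        rw [h2]
        exact (not_le.mp h1).le
    have hsplit : ((Y.filter (fun y => v y ≤ j)).card : ℝ) ≤
        ((Y.filter (fun y => v y < j)).card : ℝ) + ((Y.filter (fun y => v y = j)).card : ℝ) := by
      have h1 : Y.filter (fun y => v y ≤ j) ⊆
          Y.filter (fun y => v y < j) ∪ Y.filter (fun y => v y = j) := by
        intro y hy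
        rw [Finset.mem_filter] at hy
        rw [Finset.mem_union, Finset.mem_filter, Finset.mem_filter]
        rcases lt_or_eq_of_le hy.2 with h | h
        · exact Or.inl ⟨hy.1, h⟩
        · exact Or.inr ⟨hy.1, h⟩
      exact_mod_cast (Finset.card_le_card h1).trans (Finset.card_union_le _ _)
    have h3 := h j
    simp only [hv] at hlt hsplit
    simp only [hv]
    linarith
  · rw [hcompl j]
    linarith

end Pool.Agent.Helper23.BK
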