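import Pool.Agent.Helper23.BK.RareProd
import Pool.Agent.Helper23.BK.CaseBC
import Pool.Agent.Helper23.BK.CaseE
import Pool.Agent.Helper23.BK.Thresh

set_option autoImplicit false

/-! # Project BK, Proposition T -/

namespace Pool.Agent.Helper23.BK

open Finset Pool.Agent.Helper24.MD

/-- every prime is good for `T` or has constant valuations on all translates of `Y` -/
def Good (T Y : Finset ℕ) : Prop :=
  ∀ p : ℕ, p.Prime → Inj T p ∨
    ∀ t ∈ T, ∀ y ∈ Y, ∀ y' ∈ Y, (y + t).factorization p = (y' + t).factorization p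

theorem Good.mono {T Y Z : Finset ℕ} (h : Good T Y) (hZ : Z ⊆ Y) : Good T Z := by
  intro p hp
  rcases h p hp with h1 | h1
  · exact Or.inl h1
  · exact Or.inr fun t ht y hy y' hy' => h1 t ht y (hZ hy) y' (hZ hy')

/-- the class of an element of `Y` modulo `M` is proper if `Y` has elements `y` with `M ∣ y + t0`
and elements without -/
theorem cl_card_lt' (M t0 : ℕ) (Y : Finset ℕ)
    (h1 : (Y.filter (fun y => ¬ M ∣ y + t0)).Nonempty)
    (h0 : (Y.filter (fun y => M ∣ y + t0)).Nonempty)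
    (y : ℕ) : (cl (rY M) Y y).card < Y.card := by
  obtain ⟨a, ha⟩ := h1
  obtain ⟨b, hb⟩ := h0
  rw [Finset.mem_filter] at ha hb
  apply Finset.card_lt_card
  unfold cl
  rw [Finset.filter_ssubset]
  by_contra hcon
  push Not at hcon
  have h2 := hcon a ha.1
  have h3 := hcon b hb.1
  have h4 : rY M a = rY M b := h2.trans h3.symm
  unfold rY at h4
  have h5 : ((b + t0 : ℕ) : ZMod M) = 0 := (ZMod.natCast_eq_zero_iff _ M).2 hb.2
  have h6 : ((a + t0 : ℕ) : ZMod M) = 0 := by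
    rw [← h5]
    push_cast
    rw [h4]
  exact ha.2 ((ZMod.natCast_eq_zero_iff _ M).1 h6)

/-- the terminal case: all translates are rare -/
theorem dt_rare (ε κ : ℝ) (hR : ∀ X Z : Finset ℕ, X.Nonempty → Z.Nonempty → (∀ x ∈ X, 0 < x) →
      (∀ z ∈ Z, 0 < z) → Rare κ Z →
      (1 - ε) * (Real.log (X.card : ℝ) + Real.log (Z.card : ℝ)) ≤
        Real.log ((Finset.image₂ (fun a b : ℕ => a * b) X Z).card : ℝ))
    (t : ℕ) (X Y : Finset ℕ) (hX : X.Nonempty) (hY : Y.Nonempty) (hXp : ∀ x ∈ X, 0 < x)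
    (hYp : ∀ y ∈ Y, 0 < y)
    (h : ∀ p : ℕ, ∃ e : ℕ, (1 - κ) * (Y.card : ℝ) ≤
      ((Y.filter (fun y => (y + t).factorization p = e)).card : ℝ)) :
    dt t X Y ≤ ε * Real.log (X.card : ℝ) + ε * Real.log (Y.card : ℝ) := by
  have hinj : Function.Injective (fun y : ℕ => y + t) := fun a b hab => Nat.add_right_cancel hab
  have hcard : (Y.image (fun y => y + t)).card = Y.card := Finset.card_image_of_injective _ hinj
  have h1 := hR X (Y.image (fun y => y + t)) hX (hY.image _) hXp (by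
    intro z hz
    obtain ⟨y, hy, rfl⟩ := Finset.mem_image.1 hz
    have := hYp y hy
    omega) (by
    intro p
    obtain ⟨e, he⟩ := h p
    refine ⟨e, ?_⟩
    rw [hcard, Finset.filter_image, Finset.card_image_of_injective _ hinj]
    exact he)
  have h2 : Finset.image₂ (fun a b : ℕ => a * b) X (Y.image (fun y => y + t)) = sp t X Y := by
    unfold sp
    rw [Finset.image₂_image_right]
  rw [h2, hcard] at h1
  unfold dt
  linarith

/-- Proposition T -/
theorem propT (ε : ℝ) (hε : 0 < ε) (hε1 : ε ≤ 1) : ∃ m : ℕ, 2 ≤ m ∧ ∀ T : Finset ℕ,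
    m ≤ T.card → ∀ Y : Finset ℕ, Y.Nonempty → (∀ y ∈ Y, 0 < y) → Good T Y →
      ∀ X : Finset ℕ, X.Nonempty → (∀ x ∈ X, 0 < x) →
        av T (fun t => dt t X Y) ≤ ε * Real.log (X.card : ℝ) + ε * Real.log (Y.card : ℝ) := by
  classical
  obtain ⟨κ, hκ, hκ1, hR⟩ := rare_prod ε hε hε1
  obtain ⟨L, hL⟩ : ∃ L : ℝ, L = Real.log (2 / κ) := ⟨_, rfl⟩
  have hL0 : 0 ≤ L := by
    rw [hL]
    apply Real.log_nonneg
    rw [le_div_iff₀ hκ]
    linarith
  obtain ⟨C4, hC4⟩ : ∃ C4 : ℝ, C4 = 2 * L / ε / ε := ⟨_, rfl⟩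
  have hC40 : 0 ≤ C4 := by rw [hC4]; positivity
  have hC4B : 2 * L / ε ≤ C4 := by
    rw [hC4, le_div_iff₀ hε]
    have : 0 ≤ 2 * L / ε := by positivity
    nlinarith
  obtain ⟨δ, hδ, hδ1, hδκ, hδε⟩ : ∃ δ : ℝ, 0 < δ ∧ δ ≤ 1 / 2 ∧ δ ≤ κ / 4 ∧
      4 * δ ≤ ε * (κ ^ 2 / 8) / 2 := by
    refine ⟨min (1 / 2) (min (κ / 4) (ε * (κ ^ 2 / 8) / 8)), by positivity, min_le_left _ _,
      (min_le_right _ _).trans (min_le_left _ _), ?_⟩
    have := (min_le_right (1 / 2) (min (κ / 4) (ε * (κ ^ 2 / 8) / 8))).trans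
      (min_le_right (κ / 4) (ε * (κ ^ 2 / 8) / 8))
    linarith
  obtain ⟨r, hr⟩ : ∃ r : ℕ, Real.exp (C4 / δ) ≤ (r : ℝ) := ⟨⌈Real.exp (C4 / δ)⌉₊, Nat.le_ceil _⟩
  obtain ⟨m1, hm1⟩ : ∃ m1 : ℕ, 2 / ε ≤ (m1 : ℝ) := ⟨⌈2 / ε⌉₊, Nat.le_ceil _⟩
  obtain ⟨m2, hm2⟩ : ∃ m2 : ℕ, ((r : ℝ) + (r : ℝ) ^ 4) * Real.log r *
      (2 / (ε * (κ ^ 2 / 8))) ≤ (m2 : ℝ) :=
    ⟨⌈((r : ℝ) + (r : ℝ) ^ 4) * Real.log r * (2 / (ε * (κ ^ 2 / 8)))⌉₊, Nat.le_ceil _⟩
  refine ⟨max 2 (max m1 m2), le_max_left _ _, ?_⟩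
  intro T hTm
  have hT2 : 2 ≤ T.card := (le_max_left _ _).trans hTm
  have hTm1 : m1 ≤ T.card := (le_max_left _ _).trans ((le_max_right _ _).trans hTm)
  have hTm2 : m2 ≤ T.card := (le_max_right _ _).trans ((le_max_right _ _).trans hTm)
  have hTn : T.Nonempty := Finset.card_pos.1 (by omega)
  have hTpos : (0 : ℝ) < (T.card : ℝ) := by exact_mod_cast (by omega : 0 < T.card)
  have hmC : 2 / ε ≤ (T.card : ℝ) := hm1.trans (by exact_mod_cast hTm1)
  have hmE : 4 * δ + ((r : ℝ) + (r : ℝ) ^ 4) * Real.log r / (T.card : ℝ) ≤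
      ε * (κ ^ 2 / 8) := by
    have h1 : ((r : ℝ) + (r : ℝ) ^ 4) * Real.log r * (2 / (ε * (κ ^ 2 / 8))) ≤ (T.card : ℝ) :=
      hm2.trans (by exact_mod_cast hTm2)
    have h2 : ((r : ℝ) + (r : ℝ) ^ 4) * Real.log r / (T.card : ℝ) ≤
        ε * (κ ^ 2 / 8) / 2 := by
      rw [div_le_iff₀ hTpos]
      have h3 : ((r : ℝ) + (r : ℝ) ^ 4) * Real.log r = (ε * (κ ^ 2 / 8) / 2) *
          (((r : ℝ) + (r : ℝ) ^ 4) * Real.log r * (2 / (ε * (κ ^ 2 / 8)))) := by
        field_simp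
      rw [h3]
      exact mul_le_mul_of_nonneg_left h1 (by positivity)
    linarith
  suffices H : ∀ n : ℕ, ∀ Y : Finset ℕ, Y.card = n → Y.Nonempty → (∀ y ∈ Y, 0 < y) →
      Good T Y → ∀ X : Finset ℕ, X.Nonempty → (∀ x ∈ X, 0 < x) →
        av T (fun t => dt t X Y) ≤ ε * Real.log (X.card : ℝ) + ε * Real.log (Y.card : ℝ) from
    fun Y hY hpos hG X hX hXp => H _ Y rfl hY hpos hG X hX hXp
  intro n
  induction n using Nat.strong_induction_on with
  | _ n ih =>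
  intro Y hn hY hpos hG X hX hXp
  have IH : ∀ Y' : Finset ℕ, Y' ⊆ Y → Y'.card < Y.card → Y'.Nonempty →
      ∀ X' : Finset ℕ, X'.Nonempty → (∀ x ∈ X', 0 < x) →
        av T (fun t => dt t X' Y') ≤
          ε * Real.log (X'.card : ℝ) + ε * Real.log (Y'.card : ℝ) := by
    intro Y' hsub hlt hne X' hX' hXp'
    exact ih Y'.card (hn ▸ hlt) Y' rfl hne (fun y hy => hpos y (hsub hy)) (hG.mono hsub) X' hX' hXp'
  have hYcard : (0 : ℝ) < (Y.card : ℝ) := by exact_mod_cast Finset.card_pos.2 hY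
  by_cases hrare : ∀ t ∈ T, ∀ p : ℕ, ∃ e : ℕ, (1 - κ) * (Y.card : ℝ) ≤
      ((Y.filter (fun y => (y + t).factorization p = e)).card : ℝ)
  · -- terminal case
    have h1 : av T (fun t => dt t X Y) ≤
        av T (fun _ => ε * Real.log (X.card : ℝ) + ε * Real.log (Y.card : ℝ)) :=
      av_mono _ _ _ fun t ht => dt_rare ε κ hR t X Y hX hY hXp hpos (hrare t ht)
    rwa [av_const _ hTn] at h1
  push Not at hrare
  obtain ⟨t0, ht0, p, hnot⟩ := hrare
  have hp : p.Prime := by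
    by_contra hp
    have h1 := hnot 0
    have h2 : Y.filter (fun y => (y + t0).factorization p = 0) = Y := by
      apply Finset.filter_true_of_mem
      intro y _
      exact Nat.factorization_eq_zero_of_not_prime _ hp
    rw [h2] at h1
    nlinarith
  have hinj : Inj T p := by
    rcases hG p hp with h1 | h1
    · exact h1
    · exfalso
      obtain ⟨y0, hy0⟩ := hY
      have h2 := hnot ((y0 + t0).factorization p)
      have h3 : Y.filter (fun y => (y + t0).factorization p = (y0 + t0).factorization p) = Y := by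
        apply Finset.filter_true_of_mem
        intro y hy
        exact h1 t0 ht0 y hy y0 hy0
      rw [h3] at h2
      nlinarith
  obtain ⟨j, hlo, hhi⟩ := thresh κ hκ hκ1 p t0 hp Y hY hpos hnot
  have hY00 : 0 < (Y.filter (fun y => p ^ (j + 1) ∣ y + t0)).card := by
    have : (0 : ℝ) < ((Y.filter (fun y => p ^ (j + 1) ∣ y + t0)).card : ℝ) :=
      lt_of_lt_of_le (by positivity) hlo
    exact_mod_cast this
  have hY0 : (Y.filter (fun y => p ^ (j + 1) ∣ y + t0)).Nonempty := Finset.card_pos.1 hY00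
  have hY0lt : (Y.filter (fun y => p ^ (j + 1) ∣ y + t0)).card < Y.card := by
    have : ((Y.filter (fun y => p ^ (j + 1) ∣ y + t0)).card : ℝ) < (Y.card : ℝ) := by
      have : 0 < κ / 2 * (Y.card : ℝ) := by positivity
      linarith
    exact_mod_cast this
  have hYp : (Y.filter (fun y => ¬ p ^ (j + 1) ∣ y + t0)).Nonempty := by
    apply Finset.card_pos.1
    have h1 : (Y.filter (fun y => p ^ (j + 1) ∣ y + t0)).card +
        (Y.filter (fun y => ¬ p ^ (j + 1) ∣ y + t0)).card = Y.card :=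
      Finset.card_filter_add_card_filter_not _
    omega
  -- case B
  by_cases hB : 2 * L / ε ≤ hh (cx p (p ^ (j + 1))) X
  · refine caseB ε L hε T hmC p j t0 hp ht0 hinj X hX hXp Y _ (Finset.filter_subset _ _) hY0
      (fun y hy => (Finset.mem_filter.1 hy).2) ?_ hB
      (fun X' hX' hXp' => IH _ (Finset.filter_subset _ _) hY0lt hY0 X' hX' hXp')
    have h1 : (0 : ℝ) < ((Y.filter (fun y => p ^ (j + 1) ∣ y + t0)).card : ℝ) := by
      exact_mod_cast hY00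
    rw [← Real.log_div hYcard.ne' h1.ne', hL]
    apply Real.log_le_log (by positivity)
    rw [div_le_div_iff₀ h1 hκ]
    nlinarith
  have IHcl : ∀ X' : Finset ℕ, X'.Nonempty → (∀ x ∈ X', 0 < x) → ∀ y ∈ Y,
      av T (fun t => dt t X' (cl (rY (p ^ (j + 1))) Y y)) ≤
        ε * Real.log (X'.card : ℝ) +
          ε * Real.log ((cl (rY (p ^ (j + 1))) Y y).card : ℝ) := by
    intro X' hX' hXp' y hy
    exact IH _ (Finset.filter_subset _ _) (cl_card_lt' _ t0 Y hYp hY0 y)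
      ⟨y, mem_cl_self _ _ _ hy⟩ X' hX' hXp'
  -- case C
  by_cases hC : hh (cx p (p ^ (j + 1))) X ≤ ε * hh (rY (p ^ (j + 1))) Y
  · exact caseC ε hε T hTn p j hp X hX hXp Y hY hC IHcl
  -- case E
  push Not at hB hC
  have hX4 : hh (cx p (p ^ (j + 1))) X ≤ C4 := hB.le.trans hC4B
  have hY4 : hh (rY (p ^ (j + 1))) Y ≤ C4 := by
    rw [hC4, le_div_iff₀ hε]
    nlinarith
  refine caseE ε κ C4 δ hε hκ (by linarith) hC40 hδ hδ1 hδκ r hr T hTn hmE p j t0 hp hinj X hX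
    hXp Y hY hlo hhi hX4 hY4 ?_
  intro X' hX' hXp' Y' hY' hne ⟨y, _, hsub⟩
  exact IH Y' hY' (lt_of_le_of_lt (Finset.card_le_card hsub) (cl_card_lt' _ t0 Y hYp hY0 y)) hne
    X' hX' hXp'

end Pool.Agent.Helper23.BK
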