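import Pool.Agent.Helper23.BK.Level

set_option autoImplicit false

/-! # Project BK, the product theorem for rare sets -/

namespace Pool.Agent.Helper23.BK

open Finset Pool.Agent.Helper24.MD

/-- the average of the logarithms of the classes of level `s` -/
private noncomputable def RPL (s : ℕ) (S : Finset ℕ) : ℝ :=
  av S (fun x => Real.log ((cl (fz s) S x).card : ℝ))

private theorem RPL_zero (S : Finset ℕ) (hS : S.Nonempty) :
    RPL 0 S = Real.log (S.card : ℝ) := by
  unfold RPL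
  simp only [cl_zero]
  exact av_const S hS _

private theorem RPL_top (s : ℕ) (S : Finset ℕ) (hS : ∀ n ∈ S, 0 < n ∧ n < s) :
    RPL s S = 0 := by
  unfold RPL av
  rw [Finset.sum_eq_zero, zero_div]
  intro x hx
  rw [cl_top s S hS x hx, Finset.card_singleton, Nat.cast_one, Real.log_one]

private theorem RPL_nonneg (s : ℕ) (S : Finset ℕ) :
    0 ≤ av S (fun x => hh (fun n : ℕ => n.factorization s) (cl (fz s) S x)) := by
  unfold av
  refine div_nonneg (Finset.sum_nonneg fun x hx => ?_) (Nat.cast_nonneg _)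
  exact hh_nonneg _ _ ⟨x, mem_cl_self _ _ _ hx⟩

private theorem EL_zero (X Z : Finset ℕ) (hX : X.Nonempty) (hZ : Z.Nonempty) :
    EL 0 X Z = Real.log ((Finset.image₂ (fun a b : ℕ => a * b) X Z).card : ℝ) := by
  unfold EL
  simp only [cl_zero]
  rw [av_const Z hZ, av_const X hX]

private theorem EL_nonneg (s : ℕ) (X Z : Finset ℕ) : 0 ≤ EL s X Z := by
  unfold EL av
  refine div_nonneg (Finset.sum_nonneg fun x _ => ?_) (Nat.cast_nonneg _)
  refine div_nonneg (Finset.sum_nonneg fun z _ => ?_) (Nat.cast_nonneg _)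
  exact Real.log_natCast_nonneg _

/-- Lemma (R). `t0` from `node (ε/2)`, `κ = min (1/2) (ε t0 / 2)`; sum `EL_step` over `s < S`,
`S` larger than all elements of `X` and `Z` (`cl_zero`, `cl_top`, `hh_step`, `markov`). -/
theorem rare_prod (ε : ℝ) (hε : 0 < ε) (hε1 : ε ≤ 1) : ∃ κ : ℝ, 0 < κ ∧ κ ≤ 1 / 2 ∧
    ∀ X Z : Finset ℕ, X.Nonempty → Z.Nonempty → (∀ x ∈ X, 0 < x) → (∀ z ∈ Z, 0 < z) →
      Rare κ Z →
      (1 - ε) * (Real.log (X.card : ℝ) + Real.log (Z.card : ℝ)) ≤
        Real.log ((Finset.image₂ (fun a b : ℕ => a * b) X Z).card : ℝ) := by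
  obtain ⟨t0, ht0, -, hnode⟩ := node (ε / 2) (by linarith) (by linarith)
  have hk : 0 < ε * t0 / 2 := by positivity
  refine ⟨min (1 / 2) (ε * t0 / 2), lt_min (by norm_num) hk, min_le_left _ _, ?_⟩
  intro X Z hX hZ hX0 hZ0 hR
  set κ : ℝ := min (1 / 2) (ε * t0 / 2) with hκ
  have hκt : κ / t0 ≤ ε / 2 := by
    rw [div_le_iff₀ ht0]
    have h1 : κ ≤ ε * t0 / 2 := min_le_right _ _
    linarith
  have key : ∀ S : ℕ, EL S X Z + (1 - ε / 2) * ((Real.log (X.card : ℝ) - RPL S X) +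
      (Real.log (Z.card : ℝ) - RPL S Z)) - κ / t0 * (Real.log (X.card : ℝ) - RPL S X) ≤
      EL 0 X Z := by
    intro S
    induction S with
    | zero =>
      rw [RPL_zero X hX, RPL_zero Z hZ]
      simp
    | succ S ih =>
      have h1 := EL_step (ε / 2) t0 hnode S X Z hX hZ hX0 hZ0
      have h2 := markov κ t0 ht0 S Z hZ hR
      have h3 := RPL_nonneg S X
      have h4 := mul_le_mul_of_nonneg_right h2 h3
      have h5 : av X (fun x => hh (fun n : ℕ => n.factorization S) (cl (fz S) X x)) =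
          RPL S X - RPL (S + 1) X := hh_step S X
      have h6 : av Z (fun x => hh (fun n : ℕ => n.factorization S) (cl (fz S) Z x)) =
          RPL S Z - RPL (S + 1) Z := hh_step S Z
      rw [h5] at h4
      rw [h5, h6] at h1
      have h7 : EL (S + 1) X Z + (1 - ε / 2) * ((RPL S X - RPL (S + 1) X) +
          (RPL S Z - RPL (S + 1) Z)) - κ / t0 * (RPL S X - RPL (S + 1) X) ≤ EL S X Z := by
        linarith
      have h8 : EL (S + 1) X Z + (1 - ε / 2) * ((Real.log (X.card : ℝ) - RPL (S + 1) X) +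
          (Real.log (Z.card : ℝ) - RPL (S + 1) Z)) -
          κ / t0 * (Real.log (X.card : ℝ) - RPL (S + 1) X) =
          (EL (S + 1) X Z + (1 - ε / 2) * ((RPL S X - RPL (S + 1) X) +
          (RPL S Z - RPL (S + 1) Z)) - κ / t0 * (RPL S X - RPL (S + 1) X)) +
          ((1 - ε / 2) * ((Real.log (X.card : ℝ) - RPL S X) +
          (Real.log (Z.card : ℝ) - RPL S Z)) - κ / t0 * (Real.log (X.card : ℝ) - RPL S X)) := by
        ring
      rw [h8]
      linarith
  have hfin := key (max (X.sup id) (Z.sup id) + 1)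
  have hXs : ∀ n ∈ X, 0 < n ∧ n < max (X.sup id) (Z.sup id) + 1 := fun n hn =>
    ⟨hX0 n hn, Nat.lt_succ_of_le ((Finset.le_sup (f := id) hn).trans (le_max_left _ _))⟩
  have hZs : ∀ n ∈ Z, 0 < n ∧ n < max (X.sup id) (Z.sup id) + 1 := fun n hn =>
    ⟨hZ0 n hn, Nat.lt_succ_of_le ((Finset.le_sup (f := id) hn).trans (le_max_right _ _))⟩
  rw [RPL_top _ X hXs, RPL_top _ Z hZs, EL_zero X Z hX hZ, sub_zero, sub_zero] at hfin
  have h9 := EL_nonneg (max (X.sup id) (Z.sup id) + 1) X Z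
  have hlX : 0 ≤ Real.log (X.card : ℝ) := Real.log_natCast_nonneg _
  have hlZ : 0 ≤ Real.log (Z.card : ℝ) := Real.log_natCast_nonneg _
  have h10 := mul_le_mul_of_nonneg_right hκt hlX
  have h11 : 0 ≤ ε / 2 * Real.log (Z.card : ℝ) := mul_nonneg (by linarith) hlZ
  have h12 : (1 - ε) * (Real.log (X.card : ℝ) + Real.log (Z.card : ℝ)) =
      (1 - ε / 2) * (Real.log (X.card : ℝ) + Real.log (Z.card : ℝ)) -
        ε / 2 * Real.log (X.card : ℝ) - ε / 2 * Real.log (Z.card : ℝ) := by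
    ring
  rw [h12]
  linarith

end Pool.Agent.Helper23.BK
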