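import Pool.Agent.Helper23.BK.Defs

set_option autoImplicit false

/-! # Project BK, Tower: averages over classes, the levels `cl (fz s)` -/

namespace Pool.Agent.Helper23.BK

open Finset Pool.Agent.Helper24.MD

/-- averages of functions which agree -/
theorem Tower_congr {α : Type*} (S : Finset α) (F F' : α → ℝ) (h : ∀ x ∈ S, F x = F' x) :
    av S F = av S F' := by
  unfold av
  rw [Finset.sum_congr rfl h]

theorem Tower_mem {α β : Type*} [DecidableEq β] {φ : α → β} {S : Finset α} {x y : α} :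
    y ∈ cl φ S x ↔ y ∈ S ∧ φ y = φ x := by
  unfold cl
  rw [Finset.mem_filter]

/-- averaging over classes changes nothing (`∑_x (∑_(x' in cl x) F x') / |cl x|`, swap the sums) -/
theorem tower {α β : Type*} [DecidableEq β] (φ : α → β) (S : Finset α) (F : α → ℝ) :
    av S (fun x => av (cl φ S x) F) = av S F := by
  unfold av
  congr 1
  have h1 : ∀ x ∈ S, (∑ x' ∈ cl φ S x, F x') / ((cl φ S x).card : ℝ) =
      ∑ x' ∈ S, if φ x' = φ x then F x' / ((cl φ S x').card : ℝ) else 0 := by
    intro x _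
    rw [Finset.sum_div, ← Finset.sum_filter]
    refine Finset.sum_congr rfl fun x' hx' => ?_
    have h2 : cl φ S x = cl φ S x' := by
      have h3 : φ x' = φ x := (Tower_mem.1 hx').2
      unfold cl
      rw [h3]
    rw [h2]
  rw [Finset.sum_congr rfl h1, Finset.sum_comm]
  refine Finset.sum_congr rfl fun x' hx' => ?_
  have h2 : ∀ x ∈ S, (if φ x' = φ x then F x' / ((cl φ S x').card : ℝ) else 0) =
      if φ x = φ x' then F x' / ((cl φ S x').card : ℝ) else 0 := by
    intro x _
    by_cases h : φ x' = φ x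
    · rw [if_pos h, if_pos h.symm]
    · rw [if_neg h, if_neg (fun h' => h h'.symm)]
  rw [Finset.sum_congr rfl h2, ← Finset.sum_filter, Finset.sum_const, nsmul_eq_mul]
  have h3 : ((cl φ S x').card : ℝ) ≠ 0 := by
    have : 0 < (cl φ S x').card := Finset.card_pos.2 ⟨x', Tower_mem.2 ⟨hx', rfl⟩⟩
    positivity
  exact mul_div_cancel₀ (F x') h3

theorem Tower_pos {s q : ℕ} (hq : q < s) (a : ℕ) : fz s a q = a.factorization q :=
  Finsupp.filter_apply_pos (fun q => q < s) a.factorization hq

theorem Tower_neg {s q : ℕ} (hq : ¬ q < s) (a : ℕ) : fz s a q = 0 :=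
  Finsupp.filter_apply_neg (fun q => q < s) a.factorization hq

/-- equality of the exponents of the primes below `s` -/
theorem Tower_fz {s a b : ℕ} :
    fz s a = fz s b ↔ ∀ q < s, a.factorization q = b.factorization q := by
  rw [Finsupp.ext_iff]
  constructor
  · intro h q hq
    have h1 := h q
    rwa [Tower_pos hq, Tower_pos hq] at h1
  · intro h q
    by_cases hq : q < s
    · rw [Tower_pos hq, Tower_pos hq, h q hq]
    · rw [Tower_neg hq, Tower_neg hq]

/-- classes at the next level -/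
theorem cl_step (s : ℕ) (S : Finset ℕ) (x x' : ℕ) (hx' : x' ∈ cl (fz s) S x) :
    cl (fun n : ℕ => n.factorization s) (cl (fz s) S x) x' = cl (fz (s + 1)) S x' := by
  have h1 := Tower_fz.1 (Tower_mem.1 hx').2
  ext y
  rw [Tower_mem, Tower_mem, Tower_mem, Tower_fz, Tower_fz]
  constructor
  · rintro ⟨⟨h2, h3⟩, h4⟩
    refine ⟨h2, fun q hq => ?_⟩
    rcases Nat.lt_succ_iff_lt_or_eq.1 hq with h | h
    · rw [h3 q h, h1 q h]
    · rw [h]
      exact h4
  · rintro ⟨h2, h3⟩
    refine ⟨⟨h2, fun q hq => ?_⟩, h3 s (Nat.lt_succ_self s)⟩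
    rw [h3 q (hq.trans (Nat.lt_succ_self s)), h1 q hq]

theorem cl_zero (S : Finset ℕ) (x : ℕ) : cl (fz 0) S x = S := by
  ext y
  rw [Tower_mem, Tower_fz]
  exact ⟨fun h => h.1, fun h => ⟨h, fun q hq => absurd hq (Nat.not_lt_zero q)⟩⟩

/-- the last level separates points -/
theorem cl_top (s : ℕ) (S : Finset ℕ) (hS : ∀ n ∈ S, 0 < n ∧ n < s) (x : ℕ) (hx : x ∈ S) :
    cl (fz s) S x = {x} := by
  ext y
  rw [Tower_mem, Tower_fz, Finset.mem_singleton]
  constructor
  · rintro ⟨h2, h3⟩
    refine Nat.eq_of_factorization_eq (hS y h2).1.ne' (hS x hx).1.ne' fun q => ?_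
    by_cases hq : q < s
    · exact h3 q hq
    · rw [Nat.factorization_eq_zero_of_lt ((hS y h2).2.trans_le (not_lt.1 hq)),
        Nat.factorization_eq_zero_of_lt ((hS x hx).2.trans_le (not_lt.1 hq))]
  · rintro rfl
    exact ⟨hx, fun q _ => rfl⟩

/-- the entropies of the levels telescope (`tower`, `cl_step`) -/
theorem hh_step (s : ℕ) (S : Finset ℕ) :
    av S (fun x => hh (fun n : ℕ => n.factorization s) (cl (fz s) S x)) =
      av S (fun x => Real.log ((cl (fz s) S x).card : ℝ)) -
        av S (fun x => Real.log ((cl (fz (s + 1)) S x).card : ℝ)) := by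
  have h1 : ∀ x ∈ S, hh (fun n : ℕ => n.factorization s) (cl (fz s) S x) =
      Real.log ((cl (fz s) S x).card : ℝ) + (-1) *
        av (cl (fz s) S x) (fun x' => Real.log ((cl (fz (s + 1)) S x').card : ℝ)) := by
    intro x _
    have h2 : av (cl (fz s) S x) (fun x' =>
        Real.log ((cl (fun n : ℕ => n.factorization s) (cl (fz s) S x) x').card : ℝ)) =
        av (cl (fz s) S x) (fun x' => Real.log ((cl (fz (s + 1)) S x').card : ℝ)) :=
      Tower_congr _ _ _ fun x' hx' => by rw [cl_step s S x x' hx']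
    unfold hh
    rw [h2]
    ring
  rw [Tower_congr _ _ _ h1, av_add, av_mul, tower]
  ring

end Pool.Agent.Helper23.BK
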